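import Pool.Agent.Run7.h386.DE.Energy

/-!
Splitting the energies by residue classes.
-/

set_option autoImplicit false

namespace Pool.Agent.Run7.h386.DE

open Finset
open scoped Classical

/-- a residue class in `X` -/
def cl (Q : ℤ) (X : Finset ℤ) (r : ℤ) : Finset ℤ := X.filter fun y => y % Q = r

/-- the residues -/
def rs (Q : ℤ) (X : Finset ℤ) : Finset ℤ := X.image fun y => y % Q

lemma cl_sub (Q : ℤ) (X : Finset ℤ) (r : ℤ) : cl Q X r ⊆ X := Finset.filter_subset _ _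

lemma mem_cl {Q : ℤ} {X : Finset ℤ} {r x : ℤ} : x ∈ cl Q X r ↔ x ∈ X ∧ x % Q = r :=
  Finset.mem_filter

lemma mem_rs {Q : ℤ} {X : Finset ℤ} {x : ℤ} (hx : x ∈ X) : x % Q ∈ rs Q X :=
  Finset.mem_image_of_mem _ hx

lemma sum_cl (Q : ℤ) (X : Finset ℤ) : ∑ r ∈ rs Q X, ((cl Q X r).card : ℝ) = X.card := by
  have := Finset.card_eq_sum_card_image (fun y => y % Q) X
  rw [this]
  push_cast
  rfl

lemma prod_filter_right (X B : Finset ℤ) (Q r : ℤ)
    {h : DecidablePred fun y : ℤ × ℤ => y.2 % Q = r} :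
    @Finset.filter _ (fun y : ℤ × ℤ => y.2 % Q = r) h (X ×ˢ B) = X ×ˢ cl Q B r := by
  ext y
  simp only [Finset.mem_filter, Finset.mem_product, mem_cl]
  tauto

lemma prod_filter_left (X B : Finset ℤ) (Q r : ℤ)
    {h : DecidablePred fun y : ℤ × ℤ => y.1 % Q = r} :
    @Finset.filter _ (fun y : ℤ × ℤ => y.1 % Q = r) h (X ×ˢ B) = cl Q X r ×ˢ B := by
  ext y
  simp only [Finset.mem_filter, Finset.mem_product, mem_cl]
  tauto

lemma emod_eq_iff {Q x y : ℤ} : x % Q = y % Q ↔ Q ∣ x - y := by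
  rw [Int.emod_eq_emod_iff_emod_sub_eq_zero, Int.dvd_iff_emod_eq_zero]

/-- the first summand in few classes: the classes of the second summand are determined -/
lemma split_right {α : ℝ} (hα : 0 ≤ α) (t Q : ℤ) (X B : Finset ℤ) :
    NE α t (X ×ˢ B) ≤ ((rs Q X).card : ℝ) ^ α * ∑ r ∈ rs Q X, ∑ r' ∈ rs Q B,
      NE α t (cl Q X r ×ˢ cl Q B r') := by
  refine (NE_sum_le hα (rs Q X) (fun r => cl Q X r ×ˢ B) ?_ ?_).trans ?_
  · intro y hy
    obtain ⟨h1, h2⟩ := Finset.mem_product.1 hy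
    exact ⟨_, mem_rs h1, Finset.mem_product.2 ⟨mem_cl.2 ⟨h1, rfl⟩, h2⟩⟩
  · intro r _
    exact Finset.product_subset_product (cl_sub _ _ _) subset_rfl
  · refine mul_le_mul_of_nonneg_left (Finset.sum_le_sum fun r _ => ?_)
      (Real.rpow_nonneg (Nat.cast_nonneg _) _)
    rw [NE_label (fun y => y.2 % Q) (rs Q B)
      (fun y hy => mem_rs (Finset.mem_product.1 hy).2)]
    · refine Finset.sum_le_sum fun r' _ => ?_
      rw [prod_filter_right]
    · intro y hy y' hy' h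
      have h1 := (mem_cl.1 (Finset.mem_product.1 hy).1).2
      have h2 := (mem_cl.1 (Finset.mem_product.1 hy').1).2
      have h3 := emod_eq_iff.1 (h1.trans h2.symm)
      unfold ph at h
      rw [emod_eq_iff]
      have h4 : y.2 - y'.2 = -(t * (y.1 - y'.1)) := by linarith
      rw [h4]
      exact (h3.mul_left t).neg_right

/-- the second summand in few classes, the multiplier a unit: the classes of the first summand are
determined -/
lemma split_left {α : ℝ} (hα : 0 ≤ α) {t Q : ℤ} (hc : IsCoprime Q t) (X B : Finset ℤ) :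
    NE α t (X ×ˢ B) ≤ ((rs Q B).card : ℝ) ^ α * ∑ r ∈ rs Q B, ∑ r' ∈ rs Q X,
      NE α t (cl Q X r' ×ˢ cl Q B r) := by
  refine (NE_sum_le hα (rs Q B) (fun r => X ×ˢ cl Q B r) ?_ ?_).trans ?_
  · intro y hy
    obtain ⟨h1, h2⟩ := Finset.mem_product.1 hy
    exact ⟨_, mem_rs h2, Finset.mem_product.2 ⟨h1, mem_cl.2 ⟨h2, rfl⟩⟩⟩
  · intro r _
    exact Finset.product_subset_product subset_rfl (cl_sub _ _ _)
  · refine mul_le_mul_of_nonneg_left (Finset.sum_le_sum fun r _ => ?_)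
      (Real.rpow_nonneg (Nat.cast_nonneg _) _)
    rw [NE_label (fun y => y.1 % Q) (rs Q X)
      (fun y hy => mem_rs (Finset.mem_product.1 hy).1)]
    · refine Finset.sum_le_sum fun r' _ => ?_
      rw [prod_filter_left]
    · intro y hy y' hy' h
      have h1 := (mem_cl.1 (Finset.mem_product.1 hy).2).2
      have h2 := (mem_cl.1 (Finset.mem_product.1 hy').2).2
      have h3 := emod_eq_iff.1 (h1.trans h2.symm)
      unfold ph at h
      rw [emod_eq_iff]
      have h4 : t * (y.1 - y'.1) = -(y.2 - y'.2) := by linarith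
      refine hc.dvd_of_dvd_mul_left ?_
      rw [h4]
      exact h3.neg_right

/-- the generic case -/
lemma split_gen {α : ℝ} (t Q : ℤ) (X B : Finset ℤ)
    (hg : ∀ x ∈ X, ∀ x' ∈ X, ∀ b ∈ B, ∀ b' ∈ B, t * x + b = t * x' + b' → x % Q = x' % Q) :
    NE α t (X ×ˢ B) = ∑ r ∈ rs Q X, NE α t (cl Q X r ×ˢ B) := by
  rw [NE_label (fun y => y.1 % Q) (rs Q X) (fun y hy => mem_rs (Finset.mem_product.1 hy).1)]
  · exact Finset.sum_congr rfl fun r _ => by rw [prod_filter_left]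
  · intro y hy y' hy' h
    obtain ⟨h1, h2⟩ := Finset.mem_product.1 hy
    obtain ⟨h3, h4⟩ := Finset.mem_product.1 hy'
    exact hg _ h1 _ h3 _ h2 _ h4 h

lemma split_any {α : ℝ} (hα : 0 ≤ α) (t Q : ℤ) (X B : Finset ℤ) :
    NE α t (X ×ˢ B) ≤ ((rs Q X).card : ℝ) ^ α * ∑ r ∈ rs Q X, NE α t (cl Q X r ×ˢ B) := by
  refine NE_sum_le hα (rs Q X) (fun r => cl Q X r ×ˢ B) ?_ ?_
  · intro y hy
    obtain ⟨h1, h2⟩ := Finset.mem_product.1 hy
    exact ⟨_, mem_rs h1, Finset.mem_product.2 ⟨mem_cl.2 ⟨h1, rfl⟩, h2⟩⟩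
  · intro r _
    exact Finset.product_subset_product (cl_sub _ _ _) subset_rfl

lemma super_any {α : ℝ} (hα : 0 ≤ α) (t Q : ℤ) (X B : Finset ℤ) :
    ∑ r ∈ rs Q X, NE α t (cl Q X r ×ˢ B) ≤ NE α t (X ×ˢ B) := by
  refine le_trans (le_of_eq ?_) (NE_super hα (fun y => y.1 % Q) (rs Q X)
    (fun y hy => mem_rs (Finset.mem_product.1 hy).1))
  exact Finset.sum_congr rfl fun r _ => by rw [prod_filter_left]

/-- splitting off a product set -/
lemma split_three {α : ℝ} (hα : 0 ≤ α) (t : ℤ) {X X' B B' : Finset ℤ} (hX : X' ⊆ X)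
    (hB : B' ⊆ B) : NE α t (X ×ˢ B) ≤ 3 ^ α * (NE α t (X' ×ˢ B') +
      (NE α t ((X \ X') ×ˢ B) + NE α t (X' ×ˢ (B \ B')))) := by
  set V : ℕ → Finset (ℤ × ℤ) := fun i => if i = 0 then X' ×ˢ B' else if i = 1 then (X \ X') ×ˢ B
    else X' ×ˢ (B \ B') with hV
  have h := NE_sum_le hα (t := t) (W := X ×ˢ B) (Finset.range 3) V ?_ ?_
  · have e : ∑ k ∈ Finset.range 3, NE α t (V k) = NE α t (X' ×ˢ B') +
      (NE α t ((X \ X') ×ˢ B) + NE α t (X' ×ˢ (B \ B'))) := by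
      simp [Finset.sum_range_succ, hV, add_assoc]
    rw [e] at h
    simpa using h
  · intro y hy
    obtain ⟨h1, h2⟩ := Finset.mem_product.1 hy
    by_cases h3 : y.1 ∈ X'
    · by_cases h4 : y.2 ∈ B'
      · exact ⟨0, by simp, by simp only [hV, if_true]; exact Finset.mem_product.2 ⟨h3, h4⟩⟩
      · refine ⟨2, by simp, ?_⟩
        simp only [hV]
        norm_num
        exact ⟨h3, h2, h4⟩
    · refine ⟨1, by simp, ?_⟩
      simp only [hV]
      norm_num
      exact ⟨⟨h1, h3⟩, h2⟩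
  · intro k _
    simp only [hV]
    split_ifs
    · exact Finset.product_subset_product hX hB
    · exact Finset.product_subset_product Finset.sdiff_subset subset_rfl
    · exact Finset.product_subset_product hX Finset.sdiff_subset

/-- the light elements -/
noncomputable def lt (A : ℕ) (Q : ℤ) (X : Finset ℤ) : Finset ℤ :=
  X.filter fun x => A * (cl Q X (x % Q)).card ≤ X.card

/-- the heavy elements -/
noncomputable def hv (A : ℕ) (Q : ℤ) (X : Finset ℤ) : Finset ℤ :=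
  X.filter fun x => ¬ A * (cl Q X (x % Q)).card ≤ X.card

lemma lt_sub (A : ℕ) (Q : ℤ) (X : Finset ℤ) : lt A Q X ⊆ X := Finset.filter_subset _ _
lemma hv_sub (A : ℕ) (Q : ℤ) (X : Finset ℤ) : hv A Q X ⊆ X := Finset.filter_subset _ _

lemma lt_add_hv (A : ℕ) (Q : ℤ) (X : Finset ℤ) : (lt A Q X).card + (hv A Q X).card = X.card :=
  Finset.card_filter_add_card_filter_not (s := X) fun x => A * (cl Q X (x % Q)).card ≤ X.card

/-- light classes are small -/
lemma lt_class {A : ℕ} {Q : ℤ} {X Y : Finset ℤ} (hY : Y ⊆ lt A Q X) {r : ℤ} (hr : r ∈ rs Q Y) :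
    A * (cl Q Y r).card ≤ X.card := by
  obtain ⟨x, hx, rfl⟩ := Finset.mem_image.1 hr
  have h1 := (Finset.mem_filter.1 (hY hx)).2
  refine (Nat.mul_le_mul_left _ (Finset.card_le_card ?_)).trans h1
  exact Finset.filter_subset_filter _ (hY.trans (lt_sub _ _ _))

/-- there are few heavy classes -/
lemma hv_class {A : ℕ} {Q : ℤ} {X Y : Finset ℤ} (hY : Y ⊆ hv A Q X) :
    (rs Q Y).card ≤ A := by
  rcases Y.eq_empty_or_nonempty with h0 | hne
  · rw [h0]; simp [rs]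
  obtain ⟨y, hy⟩ := hne
  have hX : 0 < X.card := Finset.card_pos.2 ⟨y, hv_sub _ _ _ (hY hy)⟩
  have h1 : ∀ r ∈ rs Q Y, X.card ≤ A * (cl Q X r).card := by
    intro r hr
    obtain ⟨x, hx, rfl⟩ := Finset.mem_image.1 hr
    have := (Finset.mem_filter.1 (hY hx)).2
    omega
  have h2 : (rs Q Y).card * X.card ≤ A * X.card := by
    calc (rs Q Y).card * X.card = ∑ _r ∈ rs Q Y, X.card := by
          rw [Finset.sum_const, smul_eq_mul]
      _ ≤ ∑ r ∈ rs Q Y, A * (cl Q X r).card := Finset.sum_le_sum h1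
      _ = A * ∑ r ∈ rs Q Y, (cl Q X r).card := (Finset.mul_sum _ _ _).symm
      _ ≤ A * ∑ r ∈ rs Q X, (cl Q X r).card := Nat.mul_le_mul_left _
          (Finset.sum_le_sum_of_subset (Finset.image_subset_image (hY.trans (hv_sub _ _ _))))
      _ = A * X.card := by
          rw [Finset.card_eq_sum_card_image (fun y => y % Q) X]
          rfl
  exact Nat.le_of_mul_le_mul_right h2 hX

/-- finer classes -/
lemma lt_mono {A : ℕ} {Q Q' : ℤ} (h : Q ∣ Q') (X : Finset ℤ) : lt A Q X ⊆ lt A Q' X := by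
  intro x hx
  obtain ⟨h1, h2⟩ := Finset.mem_filter.1 hx
  refine Finset.mem_filter.2 ⟨h1, (Nat.mul_le_mul_left _ (Finset.card_le_card ?_)).trans h2⟩
  intro y hy
  obtain ⟨h3, h4⟩ := mem_cl.1 hy
  exact mem_cl.2 ⟨h3, emod_eq_iff.2 (h.trans (emod_eq_iff.1 h4))⟩

lemma lt_one {A : ℕ} (hA : 2 ≤ A) (X : Finset ℤ) : lt A 1 X = ∅ := by
  rw [Finset.eq_empty_iff_forall_notMem]
  intro x hx
  obtain ⟨h1, h2⟩ := Finset.mem_filter.1 hx
  have h3 : cl 1 X (x % 1) = X := by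
    ext y; simp [mem_cl]
  rw [h3] at h2
  have : 0 < X.card := Finset.card_pos.2 ⟨x, h1⟩
  nlinarith

lemma lt_large {A q : ℕ} (hq : 2 ≤ q) {X : Finset ℤ} (hX : A ≤ X.card) :
    ∃ J : ℕ, lt A ((q : ℤ) ^ J) X = X := by
  obtain ⟨K, hK⟩ : ∃ K : ℕ, ∀ x ∈ X, ∀ y ∈ X, (x - y).natAbs < K := by
    refine ⟨(X ×ˢ X).sup (fun y => (y.1 - y.2).natAbs) + 1, fun x hx y hy => ?_⟩
    have := Finset.le_sup (f := fun y : ℤ × ℤ => (y.1 - y.2).natAbs)
      (Finset.mem_product.2 ⟨hx, hy⟩ : (x, y) ∈ X ×ˢ X)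
    simp only at this
    omega
  refine ⟨K, subset_antisymm (lt_sub _ _ _) fun x hx => Finset.mem_filter.2 ⟨hx, ?_⟩⟩
  have h1 : cl ((q : ℤ) ^ K) X (x % (q : ℤ) ^ K) ⊆ {x} := by
    intro y hy
    obtain ⟨h2, h3⟩ := mem_cl.1 hy
    rw [Finset.mem_singleton]
    have h4 := emod_eq_iff.1 h3
    have h5 : (q ^ K : ℕ) ∣ (y - x).natAbs := by
      rw [← Int.natCast_dvd_natCast]
      push_cast
      rw [dvd_abs]
      exact h4
    have h6 := hK y h2 x hx
    have h7 : K < q ^ K := Nat.lt_pow_self (by omega)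
    have h8 : (y - x).natAbs = 0 := Nat.eq_zero_of_dvd_of_lt h5 (by omega)
    omega
  have h2 := Finset.card_le_card h1
  rw [Finset.card_singleton] at h2
  calc A * (cl ((q : ℤ) ^ K) X (x % (q : ℤ) ^ K)).card ≤ A * 1 := Nat.mul_le_mul_left _ h2
    _ ≤ X.card := by omega

end Pool.Agent.Run7.h386.DE
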