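import Pool.Agent.Run7.h386.DE.StepMain

/-!
The constants.
-/

set_option autoImplicit false

namespace Pool.Agent.Run7.h386.DE

open Finset
open scoped Classical

lemma three_rpow_le {α : ℝ} (h0 : 0 ≤ α) (h1 : α ≤ 1) : (3 : ℝ) ^ α ≤ 1 + 2 * α := by
  have := rpow_one_add_le_one_add_mul_self (s := (2:ℝ)) (p := α) (by norm_num) h0 h1
  norm_num at this
  linarith

lemma exp_neg_le {x : ℝ} (h0 : 0 ≤ x) (h1 : x ≤ 1) : Real.exp (-x) ≤ 1 - x / 2 := by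
  rw [Real.exp_neg]
  have h2 := Real.add_one_le_exp x
  have h3 : 0 < x + 1 := by linarith
  calc (Real.exp x)⁻¹ ≤ (x + 1)⁻¹ := inv_anti₀ h3 h2
    _ ≤ 1 - x / 2 := by
        rw [inv_le_iff_one_le_mul₀ h3]
        nlinarith

lemma exp_le {x : ℝ} (h0 : 0 ≤ x) (h1 : x ≤ 1) : Real.exp x - 1 ≤ 2 * x := by
  have h2 := Real.abs_exp_sub_one_sub_id_le (x := x) (by rw [abs_of_nonneg h0]; exact h1)
  have h3 := (abs_le.1 h2).2
  nlinarith

lemma key_ineq {α κ y : ℝ} (h0 : 0 < α) (h1 : α ≤ 1) (hκ : 0 ≤ κ) (hy : 0 ≤ y)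
    (h : y ≤ 1 - α * (κ + 3) + α / 3) : 3 ^ α * y ≤ 1 - κ * α := by
  have h3 := three_rpow_le h0.le h1
  have h4 := mul_le_mul_of_nonneg_right h3 hy
  have h5 : (1 + 2 * α) * y ≤ (1 + 2 * α) * (1 - α * (κ + 3) + α / 3) :=
    mul_le_mul_of_nonneg_left h (by linarith)
  have h6 : 0 ≤ α * α * (κ + 8 / 3) := by positivity
  nlinarith

theorem exists_cn (δ c : ℝ) (L : ℕ) (hδ : 0 < δ) (hc : 0 ≤ c) :
    ∃ (A₀ AB AX : ℕ) (β : ℝ), 0 < β ∧ β ≤ 1 ∧ A₀ ≤ AB ∧ ∃ α₁ : ℝ, 0 < α₁ ∧ α₁ ≤ 1 ∧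
      ∀ α : ℝ, 0 < α → α ≤ α₁ → Cn α δ c β L A₀ AB AX := by
  obtain ⟨κ, hκ⟩ : ∃ κ : ℝ, κ = (L + 1) * c := ⟨_, rfl⟩
  have hκ0 : 0 ≤ κ := by rw [hκ]; positivity
  obtain ⟨G, hG⟩ : ∃ G : ℝ, G = 16 * (κ + 3) := ⟨_, rfl⟩
  have hG0 : 0 < G := by rw [hG]; positivity
  -- numbers with large logarithms
  have hex : ∀ x : ℝ, 0 < x → ∃ A : ℕ, 2 ≤ A ∧ x ≤ Real.log A := by
    intro x hx
    obtain ⟨A, hA⟩ := exists_nat_ge (Real.exp x)
    have h1 : 1 < Real.exp x := Real.one_lt_exp_iff.2 hx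
    have h2 : (1 : ℝ) < A := lt_of_lt_of_le h1 hA
    have h3 : 1 < A := by exact_mod_cast h2
    refine ⟨A, h3, ?_⟩
    rw [Real.le_log_iff_exp_le (by linarith)]
    exact hA
  obtain ⟨A₀, hA₀2, hA₀⟩ := hex (G / δ) (by positivity)
  have hlA₀ : 0 ≤ Real.log A₀ := Real.log_natCast_nonneg _
  obtain ⟨AB', hAB'2, hAB'⟩ := hex ((Real.log A₀ + G) / δ) (by positivity)
  obtain ⟨AB, hAB⟩ : ∃ AB : ℕ, AB = max AB' A₀ := ⟨_, rfl⟩
  have hAB2 : 2 ≤ AB := by rw [hAB]; exact hAB'2.trans (le_max_left _ _)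
  have hABl : (Real.log A₀ + G) / δ ≤ Real.log AB := by
    refine hAB'.trans (Real.log_le_log (by exact_mod_cast (by omega : 0 < AB')) ?_)
    rw [hAB]; exact_mod_cast le_max_left _ _
  have hlAB : 0 ≤ Real.log AB := Real.log_natCast_nonneg _
  obtain ⟨AX, hAX2, hAX⟩ := hex ((Real.log AB + G) / δ) (by positivity)
  have hlAX : 0 ≤ Real.log AX := Real.log_natCast_nonneg _
  rw [div_le_iff₀ hδ] at hA₀ hABl hAX
  have cA₀ : (0 : ℝ) < A₀ := by exact_mod_cast (by omega : 0 < A₀)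
  have cAB : (0 : ℝ) < AB := by exact_mod_cast (by omega : 0 < AB)
  have cAX : (0 : ℝ) < AX := by exact_mod_cast (by omega : 0 < AX)
  obtain ⟨Z, hZ⟩ : ∃ Z : ℝ, Z = ((AX : ℝ) * AB) ^ 2 * (L + 1) := ⟨_, rfl⟩
  have hZ1 : 1 ≤ Z := by
    rw [hZ]
    have h1 : (1 : ℝ) ≤ (AX : ℝ) * AB := by
      have h2 : (1 : ℝ) ≤ AX := by exact_mod_cast (by omega : 1 ≤ AX)
      have h3 : (1 : ℝ) ≤ AB := by exact_mod_cast (by omega : 1 ≤ AB)
      nlinarith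
    have h4 : (1 : ℝ) ≤ ((AX : ℝ) * AB) ^ 2 := one_le_pow₀ h1
    have h5 : (0 : ℝ) ≤ L := Nat.cast_nonneg _
    nlinarith
  obtain ⟨β, hβ⟩ : ∃ β : ℝ, β = 1 / (6 * (Real.log AX + 1) * Z) := ⟨_, rfl⟩
  have hden : 1 ≤ 6 * (Real.log AX + 1) * Z := by nlinarith
  have hβ0 : 0 < β := by rw [hβ]; positivity
  have hβ1 : β ≤ 1 := by
    rw [hβ, div_le_one (by linarith)]; exact hden
  refine ⟨A₀, AB, AX, β, hβ0, hβ1, by rw [hAB]; exact le_max_right _ _,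
    min (1 / G) (1 / (Real.log AX + 1)), lt_min (by positivity) (by positivity), ?_, ?_⟩
  · refine (min_le_right _ _).trans ?_
    rw [div_le_one (by positivity)]
    linarith
  intro α hα hα1
  have hαG : α * G ≤ 1 := by
    have := hα1.trans (min_le_left _ _)
    rwa [le_div_iff₀ hG0] at this
  have hαX : α * (Real.log AX + 1) ≤ 1 := by
    have := hα1.trans (min_le_right _ _)
    rwa [le_div_iff₀ (by linarith)] at this
  have hα1' : α ≤ 1 := by nlinarith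
  have hexp : Real.exp (-(α * G)) ≤ 1 - α * G / 2 := exp_neg_le (by positivity) hαG
  -- the factors
  have hrpow : ∀ (A : ℕ) (x : ℝ), (0 : ℝ) < A → (A : ℝ) ^ x = Real.exp (x * Real.log A) := by
    intro A x hA
    rw [Real.rpow_def_of_pos hA, mul_comm]
  have f1 : (A₀ : ℝ) ^ α * (AB : ℝ) ^ (-(α * δ)) ≤ 1 - α * G / 2 := by
    refine le_trans ?_ hexp
    rw [hrpow A₀ _ cA₀, hrpow AB _ cAB, ← Real.exp_add]
    apply Real.exp_le_exp.2
    nlinarith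
  have f2 : (AB : ℝ) ^ α * (AX : ℝ) ^ (-(α * δ)) ≤ 1 - α * G / 2 := by
    refine le_trans ?_ hexp
    rw [hrpow AB _ cAB, hrpow AX _ cAX, ← Real.exp_add]
    apply Real.exp_le_exp.2
    nlinarith
  have f3 : (A₀ : ℝ) ^ (-(α * δ)) ≤ 1 - α * G / 2 := by
    refine le_trans ?_ hexp
    rw [hrpow A₀ _ cA₀]
    apply Real.exp_le_exp.2
    nlinarith
  have p1 : 0 ≤ (A₀ : ℝ) ^ α * (AB : ℝ) ^ (-(α * δ)) := by positivity
  have p2 : 0 ≤ (AB : ℝ) ^ α * (AX : ℝ) ^ (-(α * δ)) := by positivity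
  have p3 : 0 ≤ (A₀ : ℝ) ^ (-(α * δ)) := by positivity
  have hαG0 : 0 ≤ α * G := by positivity
  have hGκ : α * G / 16 = α * (κ + 3) := by rw [hG]; ring
  have eκ : ∀ x : ℝ, (L + 1) * c * x = κ * x := fun x => by rw [hκ]
  refine ⟨hA₀2, by omega, by omega, by linarith, ?_, by linarith, ?_, by linarith, ?_⟩
  · rw [eκ]
    refine key_ineq hα hα1' hκ0 (by linarith) ?_
    linarith
  · rw [eκ]
    refine key_ineq hα hα1' hκ0 (by linarith) ?_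
    linarith
  · rw [eκ]
    have h1 : (AX : ℝ) ^ α - 1 ≤ 2 * (α * Real.log AX) := by
      rw [hrpow AX _ cAX]
      exact exp_le (by positivity) (by nlinarith)
    have h2 : 1 ≤ (AX : ℝ) ^ α := Real.one_le_rpow (by exact_mod_cast (by omega : 1 ≤ AX)) hα.le
    have h3 : ((AX : ℝ) * AB) ^ 2 * (β * (L + 1)) = 1 / (6 * (Real.log AX + 1)) := by
      have : ((AX : ℝ) * AB) ^ 2 * (β * (L + 1)) = β * Z := by rw [hZ]; ring
      have hZ0 : Z ≠ 0 := by linarith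
      have hl1 : 6 * (Real.log AX + 1) ≠ 0 := by linarith
      rw [this, hβ, one_div, mul_inv, mul_assoc, inv_mul_cancel₀ hZ0, mul_one, one_div]
    have h4 : ((AX : ℝ) ^ α - 1) * (((AX : ℝ) * AB) ^ 2 * (β * (L + 1))) ≤ α / 3 := by
      rw [h3, mul_one_div, div_le_div_iff₀ (by positivity) (by norm_num)]
      nlinarith
    have h5 : 0 ≤ ((AX : ℝ) ^ α - 1) * (((AX : ℝ) * AB) ^ 2 * (β * (L + 1))) := by
      have : 0 ≤ (AX : ℝ) ^ α - 1 := by linarith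
      positivity
    refine key_ineq hα hα1' hκ0 (by linarith) ?_
    linarith

end Pool.Agent.Run7.h386.DE
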