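import Mathlib

/-!
Divisors of products of prime powers.
-/

set_option autoImplicit false

namespace Pool.Agent.Run7.h386.DE

open Finset
open scoped Classical

/-- the product of the prime powers -/
def MP (E : ℕ → ℕ) (P : Finset ℕ) : ℕ := ∏ p ∈ P, p ^ E p

/-- primes with exponents between `1` and `L` -/
structure Pr (E : ℕ → ℕ) (L : ℕ) (P : Finset ℕ) : Prop where
  prime : ∀ p ∈ P, p.Prime
  one : ∀ p ∈ P, 1 ≤ E p
  le : ∀ p ∈ P, E p ≤ L

variable {E : ℕ → ℕ} {L : ℕ}

lemma Pr.mono {P P' : Finset ℕ} (h : Pr E L P) (hs : P' ⊆ P) : Pr E L P' :=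
  ⟨fun p hp => h.prime p (hs hp), fun p hp => h.one p (hs hp), fun p hp => h.le p (hs hp)⟩

lemma MP_pos {P : Finset ℕ} (h : ∀ p ∈ P, p.Prime) : 0 < MP E P :=
  Finset.prod_pos fun p hp => pow_pos (h p hp).pos _

lemma MP_coprime {J U : Finset ℕ} (hJ : ∀ p ∈ J, p.Prime) (hU : ∀ p ∈ U, p.Prime)
    (hd : Disjoint J U) : Nat.Coprime (MP E J) (MP E U) := by
  unfold MP
  refine Nat.Coprime.prod_left fun p hp => Nat.Coprime.prod_right fun q hq => ?_
  refine Nat.Coprime.pow _ _ ?_
  rw [Nat.coprime_primes (hJ p hp) (hU q hq)]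
  rintro rfl
  exact Finset.disjoint_left.1 hd hp hq

lemma MP_union {J U : Finset ℕ} (hd : Disjoint J U) : MP E (J ∪ U) = MP E J * MP E U :=
  Finset.prod_union hd

lemma MP_insert {p : ℕ} {P : Finset ℕ} (hp : p ∉ P) : MP E (insert p P) = p ^ E p * MP E P :=
  Finset.prod_insert hp

lemma coprime_MP {p : ℕ} {P : Finset ℕ} (hp : p.Prime) (hP : ∀ q ∈ P, q.Prime) (hpP : p ∉ P) :
    Nat.Coprime p (MP E P) := by
  unfold MP
  refine Nat.Coprime.prod_right fun q hq => Nat.Coprime.pow_right _ ?_
  rw [Nat.coprime_primes hp (hP q hq)]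
  rintro rfl
  exact hpP hq

/-- sums over the divisors of a product of coprime integers -/
lemma sum_split {m n : ℕ} (h : Nat.Coprime m n) {R : Type*} [AddCommMonoid R] (f : ℕ → R) :
    ∑ t ∈ (m * n).divisors, f t = ∑ u ∈ n.divisors, ∑ j ∈ m.divisors, f (j * u) := by
  rw [Nat.divisors_mul, Finset.mul_def, Finset.sum_image h.mul_injOn_divisors,
    Finset.sum_product_right]

lemma card_div_MP {P : Finset ℕ} (h : ∀ p ∈ P, p.Prime) :
    (MP E P).divisors.card = ∏ p ∈ P, (E p + 1) := by
  induction P using Finset.induction_on with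
  | empty => simp [MP]
  | insert p P hp ih =>
    have hpp := h p (Finset.mem_insert_self _ _)
    have hP : ∀ q ∈ P, q.Prime := fun q hq => h q (Finset.mem_insert_of_mem hq)
    rw [MP_insert hp, Nat.Coprime.card_divisors_mul (Nat.Coprime.pow_left _
      (coprime_MP hpp hP hp)), ih hP, Finset.prod_insert hp]
    congr 1
    rw [Nat.divisors_prime_pow hpp, Finset.card_map, Finset.card_range]

lemma two_pow_le {P : Finset ℕ} (h : Pr E L P) : 2 ^ P.card ≤ (MP E P).divisors.card := by
  rw [card_div_MP h.prime, ← Finset.prod_const]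
  exact Finset.prod_le_prod' fun p hp => by have := h.one p hp; omega

lemma card_le_pow {P : Finset ℕ} (h : Pr E L P) : (MP E P).divisors.card ≤ (L + 1) ^ P.card := by
  rw [card_div_MP h.prime, ← Finset.prod_const]
  exact Finset.prod_le_prod' fun p hp => by have := h.le p hp; omega

lemma log_MP_le {P : Finset ℕ} (h : Pr E L P) :
    Real.log (MP E P) ≤ L * ∑ p ∈ P, Real.log p := by
  unfold MP
  push_cast
  rw [Real.log_prod (fun p hp => by
    have := (h.prime p hp).pos
    positivity), Finset.mul_sum]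
  refine Finset.sum_le_sum fun p hp => ?_
  rw [Real.log_pow]
  refine mul_le_mul_of_nonneg_right ?_ (Real.log_natCast_nonneg p)
  exact_mod_cast h.le p hp

/-- a subset with small sum -/
lemma exists_small (f : ℕ → ℝ) : ∀ (n : ℕ) (P : Finset ℕ), P.card = n → ∀ h ≤ n,
    ∃ J ⊆ P, J.card = h ∧ (n : ℝ) * ∑ p ∈ J, f p ≤ h * ∑ p ∈ P, f p := by
  intro n
  induction n with
  | zero =>
    intro P hP h hh
    refine ⟨∅, Finset.empty_subset _, by simp; omega, ?_⟩
    have : h = 0 := by omega
    simp [this]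
  | succ n ih =>
    intro P hP h hh
    rcases Nat.eq_or_lt_of_le hh with h1 | h1
    · exact ⟨P, subset_rfl, by omega, by rw [h1]⟩
    · have hne : P.Nonempty := Finset.card_pos.1 (by omega)
      obtain ⟨m, hm, hmax⟩ := Finset.exists_max_image P f hne
      obtain ⟨J, hJ, hJc, hJs⟩ := ih (P.erase m) (by rw [Finset.card_erase_of_mem hm]; omega) h
        (by omega)
      refine ⟨J, hJ.trans (Finset.erase_subset _ _), hJc, ?_⟩
      set S := ∑ p ∈ P, f p with hS
      have h2 : ∑ p ∈ P.erase m, f p = S - f m := by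
        rw [hS, ← Finset.add_sum_erase P f hm]; ring
      have h3 : S ≤ (n + 1 : ℝ) * f m := by
        have := Finset.sum_le_card_nsmul P f (f m) hmax
        rw [hP, nsmul_eq_mul] at this
        push_cast at this
        exact this
      rw [h2] at hJs
      rcases Nat.eq_zero_or_pos n with h0 | h0
      · subst h0
        have : h = 0 := by omega
        subst this
        rw [Finset.card_eq_zero] at hJc
        subst hJc
        simp
      · have hn : (0 : ℝ) < n := by exact_mod_cast h0
        have hh0 : (0 : ℝ) ≤ h := Nat.cast_nonneg _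
        push_cast
        -- n * (n+1) * ΣJ ≤ (n+1) h (S - f m) ≤ n h S
        have h4 : (n : ℝ) * (((n : ℝ) + 1) * ∑ p ∈ J, f p) ≤ n * (h * S) := by
          have h5 : ((n : ℝ) + 1) * (n * ∑ p ∈ J, f p) ≤ (n + 1) * (h * (S - f m)) :=
            mul_le_mul_of_nonneg_left hJs (by positivity)
          have h6 : (h : ℝ) * S ≤ h * ((n + 1 : ℝ) * f m) := mul_le_mul_of_nonneg_left h3 hh0
          nlinarith
        exact le_of_mul_le_mul_left h4 hn

end Pool.Agent.Run7.h386.DE
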