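import Mathlib

/-!
The `(1 + α)`-energies of the representations `z = t x + b` with `(x, b)` in a finite set `W` of
pairs of integers.
-/

set_option autoImplicit false

namespace Pool.Agent.Run7.h386.DE

open Finset
open scoped Classical

/-- the value of a pair -/
def ph (t : ℤ) (y : ℤ × ℤ) : ℤ := t * y.1 + y.2

/-- the number of the representations -/
noncomputable def rp (t : ℤ) (W : Finset (ℤ × ℤ)) (z : ℤ) : ℕ := (W.filter fun y => ph t y = z).card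

/-- the energy -/
noncomputable def NE (α : ℝ) (t : ℤ) (W : Finset (ℤ × ℤ)) : ℝ :=
  ∑ y ∈ W, (rp t W (ph t y) : ℝ) ^ α

lemma rp_pos {t : ℤ} {W : Finset (ℤ × ℤ)} {y : ℤ × ℤ} (hy : y ∈ W) : 0 < rp t W (ph t y) :=
  Finset.card_pos.2 ⟨y, Finset.mem_filter.2 ⟨hy, rfl⟩⟩

lemma NE_nonneg (α : ℝ) (t : ℤ) (W : Finset (ℤ × ℤ)) : 0 ≤ NE α t W :=
  Finset.sum_nonneg fun _ _ => Real.rpow_nonneg (Nat.cast_nonneg _) _

lemma rp_mono {t : ℤ} {W W' : Finset (ℤ × ℤ)} (h : W ⊆ W') (z : ℤ) : rp t W z ≤ rp t W' z :=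
  Finset.card_le_card (Finset.filter_subset_filter _ h)

lemma NE_mono {α : ℝ} (hα : 0 ≤ α) {t : ℤ} {W W' : Finset (ℤ × ℤ)} (h : W ⊆ W') :
    NE α t W ≤ NE α t W' := by
  unfold NE
  calc ∑ y ∈ W, (rp t W (ph t y) : ℝ) ^ α ≤ ∑ y ∈ W, (rp t W' (ph t y) : ℝ) ^ α :=
        Finset.sum_le_sum fun y _ => Real.rpow_le_rpow (Nat.cast_nonneg _)
          (by exact_mod_cast rp_mono h _) hα
    _ ≤ _ := Finset.sum_le_sum_of_subset_of_nonneg h fun _ _ _ =>
        Real.rpow_nonneg (Nat.cast_nonneg _) _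

/-- the form of the energy as a sum over the values -/
lemma NE_eq {α : ℝ} (hα : 0 ≤ α) {t : ℤ} {W : Finset (ℤ × ℤ)} {Z : Finset ℤ}
    (hZ : ∀ y ∈ W, ph t y ∈ Z) : NE α t W = ∑ z ∈ Z, (rp t W z : ℝ) ^ (1 + α) := by
  unfold NE
  rw [← Finset.sum_fiberwise_of_maps_to hZ]
  refine Finset.sum_congr rfl fun z _ => ?_
  have h1 : ∑ y ∈ W with ph t y = z, (rp t W (ph t y) : ℝ) ^ α =
      ∑ y ∈ W with ph t y = z, (rp t W z : ℝ) ^ α := by
    refine Finset.sum_congr rfl fun y hy => ?_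
    rw [(Finset.mem_filter.1 hy).2]
  rw [h1, Finset.sum_const, nsmul_eq_mul]
  change (rp t W z : ℝ) * _ = _
  rcases Nat.eq_zero_or_pos (rp t W z) with h | h
  · rw [h]
    have : (1 + α) ≠ 0 := by linarith
    simp [Real.zero_rpow this]
  · have h2 : (0 : ℝ) < rp t W z := by exact_mod_cast h
    rw [Real.rpow_add h2, Real.rpow_one]

lemma card_le_NE {α : ℝ} (hα : 0 ≤ α) (t : ℤ) (W : Finset (ℤ × ℤ)) : (W.card : ℝ) ≤ NE α t W := by
  unfold NE
  calc (W.card : ℝ) = ∑ _y ∈ W, (1 : ℝ) := by simp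
    _ ≤ _ := Finset.sum_le_sum fun y hy => Real.one_le_rpow (by exact_mod_cast rp_pos hy) hα

lemma NE_le {α : ℝ} (hα : 0 ≤ α) {t : ℤ} {W : Finset (ℤ × ℤ)} {K : ℝ}
    (hK : ∀ z, (rp t W z : ℝ) ≤ K) : NE α t W ≤ W.card * K ^ α := by
  unfold NE
  rw [← nsmul_eq_mul, ← Finset.sum_const]
  exact Finset.sum_le_sum fun y _ => Real.rpow_le_rpow (Nat.cast_nonneg _) (hK _) hα

/-- labels determined by the value -/
lemma NE_label {κ : Type*} {α : ℝ} {t : ℤ} {W : Finset (ℤ × ℤ)} (f : ℤ × ℤ → κ) (K : Finset κ)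
    (hK : ∀ y ∈ W, f y ∈ K)
    (hf : ∀ y ∈ W, ∀ y' ∈ W, ph t y = ph t y' → f y = f y') :
    NE α t W = ∑ k ∈ K, NE α t (W.filter fun y => f y = k) := by
  unfold NE
  rw [← Finset.sum_fiberwise_of_maps_to (g := f) (t := K) hK]
  refine Finset.sum_congr rfl fun k _ => Finset.sum_congr rfl fun y hy => ?_
  obtain ⟨hy1, hy2⟩ := Finset.mem_filter.1 hy
  congr 2
  unfold rp
  congr 1
  ext y'
  simp only [Finset.mem_filter]
  constructor
  · rintro ⟨h1, h2⟩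
    exact ⟨⟨h1, (hf y' h1 y hy1 h2).trans hy2⟩, h2⟩
  · rintro ⟨⟨h1, _⟩, h2⟩
    exact ⟨h1, h2⟩

/-- superadditivity -/
lemma NE_super {κ : Type*} {α : ℝ} (hα : 0 ≤ α) {t : ℤ} {W : Finset (ℤ × ℤ)} (f : ℤ × ℤ → κ)
    (K : Finset κ) (hK : ∀ y ∈ W, f y ∈ K) :
    ∑ k ∈ K, NE α t (W.filter fun y => f y = k) ≤ NE α t W := by
  unfold NE
  rw [← Finset.sum_fiberwise_of_maps_to (g := f) (t := K) (s := W) hK]
  refine Finset.sum_le_sum fun k _ => Finset.sum_le_sum fun y _ => ?_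
  exact Real.rpow_le_rpow (Nat.cast_nonneg _)
    (by exact_mod_cast rp_mono (Finset.filter_subset _ _) _) hα

/-- a decomposition into few parts -/
lemma NE_sum_le {κ : Type*} {α : ℝ} (hα : 0 ≤ α) {t : ℤ} {W : Finset (ℤ × ℤ)} (K : Finset κ)
    (V : κ → Finset (ℤ × ℤ)) (hW : ∀ y ∈ W, ∃ k ∈ K, y ∈ V k) (hV : ∀ k ∈ K, V k ⊆ W) :
    NE α t W ≤ (K.card : ℝ) ^ α * ∑ k ∈ K, NE α t (V k) := by
  set Z := W.image (ph t) with hZ
  rw [NE_eq hα (Z := Z) fun y hy => Finset.mem_image_of_mem _ hy]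
  have h1 : ∑ k ∈ K, NE α t (V k) = ∑ z ∈ Z, ∑ k ∈ K, (rp t (V k) z : ℝ) ^ (1 + α) := by
    rw [Finset.sum_comm]
    refine Finset.sum_congr rfl fun k hk => ?_
    exact NE_eq hα fun y hy => Finset.mem_image_of_mem _ (hV k hk hy)
  rw [h1, Finset.mul_sum]
  refine Finset.sum_le_sum fun z _ => ?_
  have h2 : (rp t W z : ℝ) ≤ ∑ k ∈ K, (rp t (V k) z : ℝ) := by
    have : rp t W z ≤ ∑ k ∈ K, rp t (V k) z := by
      unfold rp
      refine (Finset.card_le_card ?_).trans Finset.card_biUnion_le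
      intro y hy
      obtain ⟨h3, h4⟩ := Finset.mem_filter.1 hy
      obtain ⟨k, hk, h5⟩ := hW y h3
      exact Finset.mem_biUnion.2 ⟨k, hk, Finset.mem_filter.2 ⟨h5, h4⟩⟩
    exact_mod_cast this
  calc (rp t W z : ℝ) ^ (1 + α) ≤ (∑ k ∈ K, (rp t (V k) z : ℝ)) ^ (1 + α) :=
        Real.rpow_le_rpow (Nat.cast_nonneg _) h2 (by linarith)
    _ ≤ (K.card : ℝ) ^ (1 + α - 1) * ∑ k ∈ K, (rp t (V k) z : ℝ) ^ (1 + α) :=
        Real.rpow_sum_le_const_mul_sum_rpow_of_nonneg _ (by linarith) fun _ _ => Nat.cast_nonneg _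
    _ = _ := by rw [add_sub_cancel_left]

/-- Hölder's inequality -/
lemma NE_holder {α : ℝ} (hα : 0 ≤ α) (t : ℤ) (W : Finset (ℤ × ℤ)) :
    (W.card : ℝ) ^ (1 + α) ≤ ((W.image (ph t)).card : ℝ) ^ α * NE α t W := by
  rw [NE_eq hα (Z := W.image (ph t)) fun y hy => Finset.mem_image_of_mem _ hy]
  have h1 : (W.card : ℝ) = ∑ z ∈ W.image (ph t), (rp t W z : ℝ) := by
    rw [Finset.card_eq_sum_card_image (ph t) W]
    push_cast
    rfl
  rw [h1]
  calc (∑ z ∈ W.image (ph t), (rp t W z : ℝ)) ^ (1 + α) ≤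
      ((W.image (ph t)).card : ℝ) ^ (1 + α - 1) * ∑ z ∈ W.image (ph t), (rp t W z : ℝ) ^ (1 + α) :=
        Real.rpow_sum_le_const_mul_sum_rpow_of_nonneg _ (by linarith) fun _ _ => Nat.cast_nonneg _
    _ = _ := by rw [add_sub_cancel_left]

lemma rp_le_left {t : ℤ} (X B : Finset ℤ) (z : ℤ) : rp t (X ×ˢ B) z ≤ X.card := by
  unfold rp
  refine Finset.card_le_card_of_injOn Prod.fst ?_ ?_
  · intro y hy
    exact (Finset.mem_product.1 (Finset.mem_filter.1 hy).1).1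
  · intro y hy y' hy' h
    have h1 := (Finset.mem_filter.1 hy).2
    have h2 := (Finset.mem_filter.1 hy').2
    unfold ph at h1 h2
    refine Prod.ext h ?_
    rw [h] at h1
    linarith

lemma rp_le_right {t : ℤ} (ht : t ≠ 0) (X B : Finset ℤ) (z : ℤ) : rp t (X ×ˢ B) z ≤ B.card := by
  unfold rp
  refine Finset.card_le_card_of_injOn Prod.snd ?_ ?_
  · intro y hy
    exact (Finset.mem_product.1 (Finset.mem_filter.1 hy).1).2
  · intro y hy y' hy' h
    have h1 := (Finset.mem_filter.1 hy).2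
    have h2 := (Finset.mem_filter.1 hy').2
    unfold ph at h1 h2
    refine Prod.ext ?_ h
    rw [h] at h1
    have h3 : t * y.1 = t * y'.1 := by linarith
    exact mul_left_cancel₀ ht h3

lemma NE_mul {α : ℝ} {t u : ℤ} (hu : u ≠ 0) (X B : Finset ℤ) :
    NE α (t * u) (X ×ˢ B) = NE α t ((X.image fun x => u * x) ×ˢ B) := by
  set g : ℤ × ℤ → ℤ × ℤ := fun y => (u * y.1, y.2) with hg
  have hinj : Function.Injective g := by
    intro y y' h
    simp only [hg, Prod.mk.injEq] at h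
    exact Prod.ext (mul_left_cancel₀ hu h.1) h.2
  have h1 : (X.image fun x => u * x) ×ˢ B = (X ×ˢ B).image g := by
    ext y
    simp only [Finset.mem_product, Finset.mem_image, hg, Prod.exists]
    constructor
    · rintro ⟨⟨x, hx, h⟩, hb⟩
      exact ⟨x, y.2, ⟨hx, hb⟩, Prod.ext h rfl⟩
    · rintro ⟨a, b, ⟨ha, hb⟩, rfl⟩
      exact ⟨⟨a, ha, rfl⟩, hb⟩
  have h2 : ∀ y, ph t (g y) = ph (t * u) y := by
    intro y
    simp only [ph, hg]
    ring
  rw [h1]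
  unfold NE
  rw [Finset.sum_image fun y _ y' _ h => hinj h]
  refine Finset.sum_congr rfl fun y _ => ?_
  rw [h2]
  congr 2
  unfold rp
  rw [Finset.filter_image, Finset.card_image_of_injective _ hinj]
  simp only [h2]

end Pool.Agent.Run7.h386.DE
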