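import Pool.Agent.Run7.h386.DE.Divs

/-!
Weighted divisors of an integer with bounded exponents: if no divisor has an exponentially large
weight, there is a prime modulo which the divisors prime to it are spread.
-/

set_option autoImplicit false

namespace Pool.Agent.Run7.h386.DE

open Finset
open scoped Classical

variable {E : ℕ → ℕ} {L : ℕ}

/-- the condition at a prime -/
noncomputable def cd (r : (p : ℕ) → ZMod p) (p t : ℕ) : ℝ :=
  if ¬ p ∣ t ∧ (t : ZMod p) = r p then 1 else 0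

lemma cd_nonneg (r : (p : ℕ) → ZMod p) (p t : ℕ) : 0 ≤ cd r p t := by
  unfold cd; split_ifs <;> norm_num

lemma cd_le (r : (p : ℕ) → ZMod p) (p t : ℕ) : cd r p t ≤ 1 := by
  unfold cd; split_ifs <;> norm_num

/-- two different divisors are congruent modulo few primes -/
lemma pair_le {J U : Finset ℕ} (hJ : ∀ p ∈ J, p.Prime) (hU : ∀ p ∈ U, p.Prime)
    (r : (p : ℕ) → ZMod p) {u j j' : ℕ} (hj : j ∈ (MP E J).divisors)
    (hj' : j' ∈ (MP E J).divisors) (hne : j ≠ j') :
    ∑ p ∈ U, Real.log p * (cd r p (j * u) * cd r p (j' * u)) ≤ Real.log (MP E J) := by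
  set T := U.filter fun p => (¬ p ∣ j * u ∧ ((j * u : ℕ) : ZMod p) = r p) ∧
    (¬ p ∣ j' * u ∧ ((j' * u : ℕ) : ZMod p) = r p) with hT
  have h1 : ∑ p ∈ U, Real.log p * (cd r p (j * u) * cd r p (j' * u)) = ∑ p ∈ T, Real.log p := by
    rw [hT, Finset.sum_filter]
    refine Finset.sum_congr rfl fun p _ => ?_
    unfold cd
    by_cases a : ¬ p ∣ j * u ∧ ((j * u : ℕ) : ZMod p) = r p
    · by_cases b : ¬ p ∣ j' * u ∧ ((j' * u : ℕ) : ZMod p) = r p
      · simp [a, b]
      · rw [if_neg b, mul_zero, mul_zero, if_neg (fun h => b h.2)]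
    · rw [if_neg a, zero_mul, mul_zero, if_neg (fun h => a h.1)]
  have hTU : ∀ p ∈ T, p.Prime := fun p hp => hU p (Finset.mem_filter.1 hp).1
  rw [h1]
  have h2 : ∑ p ∈ T, Real.log p = Real.log ((∏ p ∈ T, p : ℕ) : ℝ) := by
    push_cast
    rw [Real.log_prod (fun p hp => by
      have := (hTU p hp).pos
      positivity)]
  rw [h2]
  obtain ⟨hj1, hj2⟩ := Nat.mem_divisors.1 hj
  obtain ⟨hj1', _⟩ := Nat.mem_divisors.1 hj'
  have hMpos : 0 < MP E J := MP_pos hJ
  have hjle := Nat.le_of_dvd hMpos hj1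
  have hjle' := Nat.le_of_dvd hMpos hj1'
  have hj0 : 0 < j := Nat.pos_of_dvd_of_pos hj1 hMpos
  have hj0' : 0 < j' := Nat.pos_of_dvd_of_pos hj1' hMpos
  have hdvd : (∏ p ∈ T, p) ∣ ((j : ℤ) - j').natAbs := by
    refine Finset.prod_primes_dvd _ (fun p hp => (hTU p hp).prime) fun p hp => ?_
    obtain ⟨_, ⟨h3, h4⟩, ⟨_, h5⟩⟩ := Finset.mem_filter.1 hp
    have hpp := hTU p hp
    have hpu : ¬ p ∣ u := fun h => h3 (Dvd.dvd.mul_left h j)
    have := Fact.mk hpp
    have h6 : (((j : ℤ) - j' : ℤ) : ZMod p) * (u : ZMod p) = 0 := by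
      have : ((j * u : ℕ) : ZMod p) = ((j' * u : ℕ) : ZMod p) := h4.trans h5.symm
      push_cast at this ⊢
      rw [sub_mul, this, sub_self]
    have h7 : (u : ZMod p) ≠ 0 := by
      rw [Ne, ZMod.natCast_eq_zero_iff]
      exact hpu
    have h8 := (mul_eq_zero.1 h6).resolve_right h7
    rw [ZMod.intCast_zmod_eq_zero_iff_dvd] at h8
    exact Int.natCast_dvd.1 h8
  have hpos : 0 < ((j : ℤ) - j').natAbs := by
    rw [Int.natAbs_pos]
    intro h
    apply hne
    have : (j : ℤ) = j' := by linarith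
    exact_mod_cast this
  have h3 := Nat.le_of_dvd hpos hdvd
  have h4 : ((j : ℤ) - j').natAbs ≤ MP E J := by omega
  have h5 : 0 < ∏ p ∈ T, p := Finset.prod_pos fun p hp => (hTU p hp).pos
  refine Real.log_le_log (by exact_mod_cast h5) ?_
  exact_mod_cast h3.trans h4

/-- the main inequality -/
lemma generic_core {β D : ℝ} (hβ : 0 < β) (hD : 0 ≤ D) {J U : Finset ℕ} (hJ : Pr E L J)
    (hU : Pr E L U) (hd : Disjoint J U) (hUn : U.Nonempty) (w : ℕ → ℝ) (hw : ∀ t, 0 ≤ w t)
    (hW : 0 < ∑ t ∈ (MP E (J ∪ U)).divisors, w t)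
    (hmax : ∀ t ∈ (MP E (J ∪ U)).divisors, w t * (MP E (J ∪ U)).divisors.card ≤
      D * ∑ t ∈ (MP E (J ∪ U)).divisors, w t)
    (r : (p : ℕ) → ZMod p)
    (hr : ∀ p ∈ U, β * ∑ t ∈ (MP E (J ∪ U)).divisors, w t <
      ∑ t ∈ (MP E (J ∪ U)).divisors, w t * cd r p t) :
    β ^ 2 / 4 * ∑ p ∈ U, Real.log p ≤
      2 / β * D / 2 ^ J.card * ∑ p ∈ U, Real.log p + Real.log (MP E J) := by
  have hcop := MP_coprime (E := E) hJ.prime hU.prime hd
  rw [MP_union hd] at hW hmax hr
  have hsplit : ∀ f : ℕ → ℝ, ∑ t ∈ (MP E J * MP E U).divisors, f t =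
      ∑ u ∈ (MP E U).divisors, ∑ j ∈ (MP E J).divisors, f (j * u) := fun f => sum_split hcop f
  rw [Nat.Coprime.card_divisors_mul hcop] at hmax
  simp only [hsplit] at hW hmax hr
  set T := (MP E J).divisors with hT
  set V := (MP E U).divisors with hV
  set W : ℝ := ∑ u ∈ V, ∑ j ∈ T, w (j * u) with hWdef
  set lam : ℝ := ∑ p ∈ U, Real.log p with hlam
  have hlog : ∀ p ∈ U, 0 < Real.log p := fun p hp =>
    Real.log_pos (by exact_mod_cast (hU.prime p hp).one_lt)
  have hlam0 : 0 < lam := Finset.sum_pos hlog hUn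
  have hV0 : 0 < V.card := Finset.card_pos.2
    ⟨1, Nat.one_mem_divisors.2 (MP_pos hU.prime).ne'⟩
  have hV0' : (0 : ℝ) < V.card := by exact_mod_cast hV0
  have hT2 : (2 : ℝ) ^ J.card ≤ T.card := by exact_mod_cast two_pow_le hJ
  have hT0 : (0 : ℝ) < T.card := lt_of_lt_of_le (by positivity) hT2
  -- the class sums
  set Wu : ℕ → ℝ := fun u => ∑ j ∈ T, w (j * u) with hWu
  set a : ℕ → ℕ → ℝ := fun u p => ∑ j ∈ T, w (j * u) * cd r p (j * u) with ha
  set F : ℕ → ℝ := fun u => ∑ p ∈ U, Real.log p * a u p with hF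
  have ha0 : ∀ u p, 0 ≤ a u p := fun u p =>
    Finset.sum_nonneg fun j _ => mul_nonneg (hw _) (cd_nonneg _ _ _)
  have haW : ∀ u p, a u p ≤ Wu u := fun u p =>
    Finset.sum_le_sum fun j _ => by
      have := mul_le_mul_of_nonneg_left (cd_le r p (j * u)) (hw (j * u))
      simpa using this
  have hWu0 : ∀ u, 0 ≤ Wu u := fun u => Finset.sum_nonneg fun j _ => hw _
  have hFle : ∀ u, F u ≤ lam * Wu u := by
    intro u
    simp only [hF, hlam, Finset.sum_mul]
    exact Finset.sum_le_sum fun p hp => mul_le_mul_of_nonneg_left (haW u p) (hlog p hp).le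
  have hFsum : β * lam * W < ∑ u ∈ V, F u := by
    have h1 : ∑ u ∈ V, F u = ∑ p ∈ U, Real.log p * ∑ u ∈ V, a u p := by
      simp only [hF]
      rw [Finset.sum_comm]
      exact Finset.sum_congr rfl fun p _ => (Finset.mul_sum _ _ _).symm
    rw [h1]
    have h2 : β * lam * W = ∑ p ∈ U, Real.log p * (β * W) := by
      rw [← Finset.sum_mul, ← hlam]; ring
    rw [h2]
    exact Finset.sum_lt_sum_of_nonempty hUn fun p hp => mul_lt_mul_of_pos_left (hr p hp) (hlog p hp)
  -- a good class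
  obtain ⟨u, hu, hu1, hu2⟩ : ∃ u ∈ V, β / 2 * lam * Wu u ≤ F u ∧ β / 2 * W ≤ V.card * Wu u := by
    by_contra hcon
    push Not at hcon
    have h1 : ∀ u ∈ V, F u ≤ β / 2 * lam * (Wu u + W / V.card) := by
      intro u hu
      have hWV : 0 ≤ W / V.card := div_nonneg hW.le hV0'.le
      by_cases h : β / 2 * lam * Wu u ≤ F u
      · have h2 := hcon u hu h
        have h3 : Wu u ≤ β / 2 * (W / V.card) := by
          rw [← mul_div_assoc, le_div_iff₀ hV0', mul_comm]
          exact h2.le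
        calc F u ≤ lam * Wu u := hFle u
          _ ≤ lam * (β / 2 * (W / V.card)) := mul_le_mul_of_nonneg_left h3 hlam0.le
          _ = β / 2 * lam * (W / V.card) := by ring
          _ ≤ _ := mul_le_mul_of_nonneg_left (by linarith [hWu0 u]) (by positivity)
      · push Not at h
        refine h.le.trans (mul_le_mul_of_nonneg_left (by linarith) (by positivity))
    have h2 := Finset.sum_le_sum h1
    rw [← Finset.mul_sum, Finset.sum_add_distrib, Finset.sum_const, nsmul_eq_mul,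
      mul_div_cancel₀ _ hV0'.ne'] at h2
    have h3 : ∑ u ∈ V, Wu u = W := rfl
    rw [h3] at h2
    linarith
  have hWu1 : 0 < Wu u := by
    by_contra h
    push Not at h
    have h1 : (V.card : ℝ) * Wu u ≤ 0 := mul_nonpos_of_nonneg_of_nonpos hV0'.le h
    have h2 : 0 < β / 2 * W := by positivity
    linarith
  -- Cauchy-Schwarz
  have hCS : (F u) ^ 2 ≤ lam * ∑ p ∈ U, Real.log p * (a u p) ^ 2 := by
    refine Finset.sum_sq_le_sum_mul_sum_of_sq_le_mul U (fun p hp => (hlog p hp).le)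
      (fun p hp => mul_nonneg (hlog p hp).le (sq_nonneg _)) fun p _ => le_of_eq ?_
    ring
  have hexp : ∑ p ∈ U, Real.log p * (a u p) ^ 2 = ∑ j ∈ T, ∑ j' ∈ T, w (j * u) * w (j' * u) *
      ∑ p ∈ U, Real.log p * (cd r p (j * u) * cd r p (j' * u)) := by
    have h1 : ∀ p ∈ U, Real.log p * (a u p) ^ 2 = ∑ j ∈ T, ∑ j' ∈ T, w (j * u) * w (j' * u) *
        (Real.log p * (cd r p (j * u) * cd r p (j' * u))) := by
      intro p _
      rw [sq, ha, Finset.sum_mul_sum, Finset.mul_sum]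
      refine Finset.sum_congr rfl fun j _ => ?_
      rw [Finset.mul_sum]
      refine Finset.sum_congr rfl fun j' _ => ?_
      ring
    rw [Finset.sum_congr rfl h1, Finset.sum_comm]
    refine Finset.sum_congr rfl fun j _ => ?_
    rw [Finset.sum_comm]
    refine Finset.sum_congr rfl fun j' _ => ?_
    rw [Finset.mul_sum]
  have hlogJ : 0 ≤ Real.log (MP E J) := Real.log_natCast_nonneg _
  have hbound : ∑ j ∈ T, ∑ j' ∈ T, w (j * u) * w (j' * u) *
      ∑ p ∈ U, Real.log p * (cd r p (j * u) * cd r p (j' * u)) ≤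
      lam * ∑ j ∈ T, w (j * u) * w (j * u) + Real.log (MP E J) * (Wu u) ^ 2 := by
    have h1 : ∀ j ∈ T, ∑ j' ∈ T, w (j * u) * w (j' * u) *
        ∑ p ∈ U, Real.log p * (cd r p (j * u) * cd r p (j' * u)) ≤
        lam * (w (j * u) * w (j * u)) + Real.log (MP E J) * (w (j * u) * Wu u) := by
      intro j hj
      rw [← Finset.add_sum_erase T _ hj]
      refine add_le_add ?_ ?_
      · rw [mul_comm lam]
        refine mul_le_mul_of_nonneg_left ?_ (mul_nonneg (hw _) (hw _))
        rw [hlam]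
        refine Finset.sum_le_sum fun p hp => ?_
        have h2 : cd r p (j * u) * cd r p (j * u) ≤ 1 :=
          mul_le_one₀ (cd_le _ _ _) (cd_nonneg _ _ _) (cd_le _ _ _)
        have := mul_le_mul_of_nonneg_left h2 (hlog p hp).le
        linarith
      · calc ∑ j' ∈ T.erase j, w (j * u) * w (j' * u) *
            ∑ p ∈ U, Real.log p * (cd r p (j * u) * cd r p (j' * u)) ≤
            ∑ j' ∈ T.erase j, w (j * u) * w (j' * u) * Real.log (MP E J) := by
              refine Finset.sum_le_sum fun j' hj' => ?_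
              refine mul_le_mul_of_nonneg_left ?_ (mul_nonneg (hw _) (hw _))
              exact pair_le hJ.prime hU.prime r hj (Finset.mem_of_mem_erase hj')
                (Finset.ne_of_mem_erase hj').symm
          _ ≤ ∑ j' ∈ T, w (j * u) * w (j' * u) * Real.log (MP E J) :=
              Finset.sum_le_sum_of_subset_of_nonneg (Finset.erase_subset _ _) fun j' _ _ =>
                mul_nonneg (mul_nonneg (hw _) (hw _)) hlogJ
          _ = _ := by
              rw [← Finset.sum_mul, ← Finset.mul_sum]; ring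
    refine (Finset.sum_le_sum h1).trans (le_of_eq ?_)
    rw [Finset.sum_add_distrib, ← Finset.mul_sum, ← Finset.mul_sum, ← Finset.sum_mul, sq]
  have hwle : ∀ j ∈ T, w (j * u) ≤ 2 / β * D / 2 ^ J.card * Wu u := by
    intro j hj
    have h1 : j * u ∈ (MP E J * MP E U).divisors := by
      rw [Nat.mem_divisors]
      exact ⟨mul_dvd_mul (Nat.dvd_of_mem_divisors hj) (Nat.dvd_of_mem_divisors hu),
        mul_ne_zero (MP_pos hJ.prime).ne' (MP_pos hU.prime).ne'⟩
    have h2 := hmax _ h1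
    push_cast at h2
    have h3 : W ≤ 2 / β * (V.card * Wu u) := by
      have : 2 / β * (β / 2 * W) = W := by field_simp
      rw [← this]
      exact mul_le_mul_of_nonneg_left hu2 (by positivity)
    have h4 : w (j * u) * (T.card * V.card) ≤ D * (2 / β * (V.card * Wu u)) :=
      h2.trans (mul_le_mul_of_nonneg_left h3 hD)
    have h5 : w (j * u) * T.card ≤ 2 / β * D * Wu u := by
      have h6 : (w (j * u) * T.card) * V.card ≤ (2 / β * D * Wu u) * V.card := by linarith
      exact le_of_mul_le_mul_right h6 hV0'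
    have h7 : w (j * u) * 2 ^ J.card ≤ 2 / β * D * Wu u :=
      (mul_le_mul_of_nonneg_left hT2 (hw _)).trans h5
    have h8 : w (j * u) ≤ 2 / β * D * Wu u / 2 ^ J.card := by
      rw [le_div_iff₀ (by positivity)]; exact h7
    refine h8.trans (le_of_eq ?_)
    ring
  have hdiag : ∑ j ∈ T, w (j * u) * w (j * u) ≤ 2 / β * D / 2 ^ J.card * (Wu u) ^ 2 := by
    calc ∑ j ∈ T, w (j * u) * w (j * u) ≤ ∑ j ∈ T, (2 / β * D / 2 ^ J.card * Wu u) * w (j * u) :=
          Finset.sum_le_sum fun j hj => mul_le_mul_of_nonneg_right (hwle j hj) (hw _)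
      _ = _ := by rw [← Finset.mul_sum, sq]; ring
  have hlow : (β / 2 * lam * Wu u) ^ 2 ≤ (F u) ^ 2 :=
    pow_le_pow_left₀ (by positivity) hu1 2
  have h1 : (β / 2 * lam * Wu u) ^ 2 ≤ lam * (lam * (2 / β * D / 2 ^ J.card * (Wu u) ^ 2) +
      Real.log (MP E J) * (Wu u) ^ 2) := by
    refine hlow.trans (hCS.trans (mul_le_mul_of_nonneg_left ?_ hlam0.le))
    rw [hexp]
    refine hbound.trans (add_le_add ?_ le_rfl)
    exact mul_le_mul_of_nonneg_left hdiag hlam0.le
  have h2 : (β ^ 2 / 4 * lam) * (lam * (Wu u) ^ 2) ≤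
      (2 / β * D / 2 ^ J.card * lam + Real.log (MP E J)) * (lam * (Wu u) ^ 2) := by
    calc (β ^ 2 / 4 * lam) * (lam * (Wu u) ^ 2) = (β / 2 * lam * Wu u) ^ 2 := by ring
      _ ≤ _ := h1
      _ = _ := by ring
  exact le_of_mul_le_mul_right h2 (by positivity)

/-- the genericity theorem -/
theorem generic (β : ℝ) (hβ : 0 < β) (hβ1 : β ≤ 1) (L : ℕ) (hL : 1 ≤ L) :
    ∃ ε₀ : ℝ, 0 < ε₀ ∧ ∃ N₀ : ℕ, ∀ (E : ℕ → ℕ) (P : Finset ℕ), Pr E L P → N₀ ≤ P.card →
      ∀ w : ℕ → ℝ, (∀ t, 0 ≤ w t) → 0 < ∑ t ∈ (MP E P).divisors, w t →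
      (∀ t ∈ (MP E P).divisors, w t * (MP E P).divisors.card ≤
        Real.exp (ε₀ * P.card) * ∑ t ∈ (MP E P).divisors, w t) →
      ∃ p ∈ P, ∀ r : (p : ℕ) → ZMod p, ∑ t ∈ (MP E P).divisors, w t * cd r p t ≤
        β * ∑ t ∈ (MP E P).divisors, w t := by
  have hl2 : 0 < Real.log 2 := Real.log_pos (by norm_num)
  have hL' : (1 : ℝ) ≤ L := by exact_mod_cast hL
  obtain ⟨γ, hγ⟩ : ∃ γ : ℝ, γ = β ^ 2 / (32 * L) := ⟨_, rfl⟩
  have hβ2 : β ^ 2 ≤ 1 := pow_le_one₀ hβ.le hβ1
  have hγ0 : 0 < γ := by rw [hγ]; positivity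
  have hγ1 : γ ≤ 1 / 32 := by
    rw [hγ, div_le_div_iff₀ (by positivity) (by norm_num)]
    nlinarith
  obtain ⟨N₀, hN₀⟩ := exists_nat_ge (2 / (γ * Real.log 2) * Real.log (64 / β ^ 3) + 2)
  refine ⟨γ * Real.log 2 / 2, by positivity, N₀, ?_⟩
  intro E P hP hN w hw hW hmax
  by_contra hcon
  push Not at hcon
  choose! r hr using hcon
  -- `r p p` is the heavy residue at `p`
  obtain ⟨n, hn⟩ : ∃ n : ℕ, n = P.card := ⟨_, rfl⟩
  have hnN : (N₀ : ℝ) ≤ n := by rw [hn]; exact_mod_cast hN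
  have hlog64 : 0 ≤ Real.log (64 / β ^ 3) := by
    apply Real.log_nonneg
    rw [le_div_iff₀ (by positivity)]
    have : β ^ 3 ≤ 1 := pow_le_one₀ hβ.le hβ1
    linarith
  have hn2 : (2 : ℝ) ≤ n := by
    have : 0 ≤ 2 / (γ * Real.log 2) * Real.log (64 / β ^ 3) := by positivity
    linarith
  have hn0 : (0 : ℝ) < n := by linarith
  obtain ⟨h, hh⟩ : ∃ h : ℕ, h = ⌊γ * n⌋₊ := ⟨_, rfl⟩
  have hle : (h : ℝ) ≤ γ * n := by rw [hh]; exact Nat.floor_le (by positivity)
  have hge : γ * n - 1 < h := by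
    have := Nat.lt_floor_add_one (γ * n)
    rw [← hh] at this
    linarith
  have hhalf : (h : ℝ) ≤ n / 2 := by nlinarith
  have hhn : h ≤ n := by
    have : (h : ℝ) ≤ n := by linarith
    exact_mod_cast this
  obtain ⟨J, hJP, hJc, hJs⟩ := exists_small (fun p => Real.log p) n P hn.symm h hhn
  set U := P \ J with hU
  have hd : Disjoint J U := Finset.disjoint_sdiff
  have hJU : J ∪ U = P := Finset.union_sdiff_of_subset hJP
  have hUc : U.card = n - h := by
    rw [hU, Finset.card_sdiff_of_subset hJP, hJc, hn]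
  have hUn : U.Nonempty := by
    rw [← Finset.card_pos, hUc]
    have : (h : ℝ) < n := by linarith
    have : h < n := by exact_mod_cast this
    omega
  have hlogp : ∀ p ∈ P, 0 ≤ Real.log (p : ℝ) := fun p _ => Real.log_natCast_nonneg p
  have hsum : ∑ p ∈ J, Real.log (p : ℝ) + ∑ p ∈ U, Real.log (p : ℝ) =
      ∑ p ∈ P, Real.log (p : ℝ) := by
    rw [← Finset.sum_union hd, hJU]
  have key := generic_core (E := E) (L := L) (D := Real.exp (γ * Real.log 2 / 2 * P.card)) hβ
    (Real.exp_pos _).le (hP.mono hJP) (hP.mono Finset.sdiff_subset) hd hUn w hw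
    (by rw [hJU]; exact hW) (by rw [hJU]; exact hmax) (fun p => r p p) (by
      intro p hp
      rw [hJU]
      have := hr p (Finset.sdiff_subset hp)
      simpa [cd] using this)
  have hlJ := log_MP_le (E := E) (hP.mono hJP)
  obtain ⟨a, ha⟩ : ∃ a : ℝ, a = ∑ p ∈ J, Real.log (p : ℝ) := ⟨_, rfl⟩
  obtain ⟨b, hb⟩ : ∃ b : ℝ, b = ∑ p ∈ U, Real.log (p : ℝ) := ⟨_, rfl⟩
  rw [← ha] at hlJ
  rw [← hb] at key
  rw [← ha, ← hsum, ← ha, ← hb] at hJs
  have hb0 : 0 < b := by
    rw [hb]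
    refine Finset.sum_pos (fun p hp => Real.log_pos ?_) hUn
    exact_mod_cast (hP.prime p (Finset.sdiff_subset hp)).one_lt
  have ha0 : 0 ≤ a := by
    rw [ha]; exact Finset.sum_nonneg fun p _ => Real.log_natCast_nonneg p
  -- `a ≤ 2 γ b`
  have hab : a ≤ 2 * γ * b := by
    have h1 : (n : ℝ) * a ≤ γ * n * (a + b) :=
      hJs.trans (mul_le_mul_of_nonneg_right hle (by linarith))
    have h2 : a ≤ γ * (a + b) := by
      have : (n : ℝ) * a ≤ n * (γ * (a + b)) := by linarith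
      exact le_of_mul_le_mul_left this hn0
    nlinarith
  have h3 : Real.log (MP E J) ≤ β ^ 2 / 16 * b := by
    refine hlJ.trans ((mul_le_mul_of_nonneg_left hab (by linarith)).trans (le_of_eq ?_))
    rw [hγ]
    field_simp
    ring
  -- the diagonal term
  have h4 : 2 / β * Real.exp (γ * Real.log 2 / 2 * P.card) / 2 ^ J.card ≤ β ^ 2 / 16 := by
    rw [hJc, ← hn]
    have e2 : (2 : ℝ) ^ h = Real.exp (h * Real.log 2) := by
      rw [mul_comm, Real.exp_mul, Real.exp_log (by norm_num)]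
      norm_num
    rw [e2, mul_div_assoc, ← Real.exp_sub]
    have h5 : γ * Real.log 2 / 2 * n - h * Real.log 2 ≤ Real.log 2 - γ * n * Real.log 2 / 2 := by
      have := mul_le_mul_of_nonneg_right hge.le hl2.le
      nlinarith
    have h6 : Real.log (64 / β ^ 3) ≤ γ * n * Real.log 2 / 2 := by
      have h7 : 2 / (γ * Real.log 2) * Real.log (64 / β ^ 3) ≤ n := by linarith
      rw [div_mul_eq_mul_div, div_le_iff₀ (by positivity)] at h7
      linarith
    have h8 : Real.exp (γ * Real.log 2 / 2 * n - h * Real.log 2) ≤ 2 * (β ^ 3 / 64) := by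
      calc _ ≤ Real.exp (Real.log 2 - Real.log (64 / β ^ 3)) := Real.exp_le_exp.2 (by linarith)
        _ = 2 * (β ^ 3 / 64) := by
            rw [Real.exp_sub, Real.exp_log (by norm_num), Real.exp_log (by positivity)]
            field_simp
    calc 2 / β * Real.exp (γ * Real.log 2 / 2 * n - h * Real.log 2) ≤ 2 / β * (2 * (β ^ 3 / 64)) :=
          mul_le_mul_of_nonneg_left h8 (by positivity)
      _ = β ^ 2 / 16 := by field_simp; ring
  have h5 := mul_le_mul_of_nonneg_right h4 hb0.le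
  have h6 : 0 < β ^ 2 * b := by positivity
  linarith

end Pool.Agent.Run7.h386.DE
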