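import Pool.Agent.Run7.h386.DE.Const
import Pool.Agent.Run7.h386.DE.Generic

/-!
The energies of the sums with dilates by the divisors of an integer with bounded exponents.
-/

set_option autoImplicit false

namespace Pool.Agent.Run7.h386.DE

open Finset
open scoped Classical

variable {E : ℕ → ℕ} {L : ℕ}

/-- splitting off a prime -/
lemma TS_erase {α : ℝ} {P : Finset ℕ} (hP : ∀ q ∈ P, q.Prime) {p : ℕ} (hp : p ∈ P)
    (X B : Finset ℤ) :
    TS α (MP E P).divisors X B = ∑ i ∈ Finset.range (E p + 1), ∑ t ∈ (MP E (P.erase p)).divisors,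
      NE α ((p : ℤ) ^ i * t) (X ×ˢ B) := by
  have hpp := hP p hp
  have hP' : ∀ q ∈ P.erase p, q.Prime := fun q hq => hP q (Finset.mem_of_mem_erase hq)
  have h1 : MP E P = p ^ E p * MP E (P.erase p) := by
    rw [← MP_insert (Finset.notMem_erase p P), Finset.insert_erase hp]
  unfold TS
  rw [h1, sum_split (Nat.Coprime.pow_left _ (coprime_MP hpp hP' (Finset.notMem_erase p P))),
    Finset.sum_comm, Nat.divisors_prime_pow hpp, Finset.sum_map]
  refine Finset.sum_congr rfl fun i _ => Finset.sum_congr rfl fun t _ => ?_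
  simp

lemma card_erase' {P : Finset ℕ} (hP : ∀ q ∈ P, q.Prime) {p : ℕ} (hp : p ∈ P) :
    ((MP E P).divisors.card : ℝ) = (MP E (P.erase p)).divisors.card * (E p + 1) := by
  have hP' : ∀ q ∈ P.erase p, q.Prime := fun q hq => hP q (Finset.mem_of_mem_erase hq)
  rw [card_div_MP hP, card_div_MP hP', ← Finset.mul_prod_erase P _ hp]
  push_cast
  ring

/-- the trivial bounds -/
lemma NE_triv {α : ℝ} (hα : 0 ≤ α) (t : ℤ) {X B : Finset ℤ} (hB : B.Nonempty) : NE α t (X ×ˢ B) ≤ (X.card * B.card) * ((X.card : ℝ) * B.card) ^ α := by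
  have h := NE_le (t := t) (W := X ×ˢ B) hα (K := (X.card : ℝ) * B.card) (fun z => by
    have h1 : rp t (X ×ˢ B) z ≤ X.card * B.card :=
      (rp_le_left X B z).trans (Nat.le_mul_of_pos_right _ hB.card_pos)
    exact_mod_cast h1)
  rw [Finset.card_product] at h
  push_cast at h
  exact h

lemma NE_small {α : ℝ} (hα : 0 ≤ α) {t : ℤ} (ht : t ≠ 0) {X B : Finset ℤ} {K : ℕ}
    (h : X.card ≤ K ∨ B.card ≤ K) : NE α t (X ×ˢ B) ≤ (X.card * B.card) * (K : ℝ) ^ α := by
  have h := NE_le (t := t) (W := X ×ˢ B) hα (K := (K : ℝ)) (fun z => by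
    rcases h with h | h
    · exact_mod_cast (rp_le_left X B z).trans h
    · exact_mod_cast (rp_le_right ht X B z).trans h)
  rw [Finset.card_product] at h
  push_cast at h
  exact h

lemma TS_le_of {α b : ℝ} {T : Finset ℕ} {X B : Finset ℤ}
    (h : ∀ t ∈ T, NE α (t : ℤ) (X ×ˢ B) ≤ b) : TS α T X B ≤ T.card * b := by
  unfold TS
  rw [← nsmul_eq_mul, ← Finset.sum_const]
  exact Finset.sum_le_sum h

theorem induction_step {δ c β α ε₀ S₀ : ℝ} {A₀ AB AX N₀ v : ℕ} (hδ : 0 < δ) (hc : 0 ≤ c)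
    (hβ : 0 < β) (hα : 0 < α) (hAA : A₀ ≤ AB) (hcn : Cn α δ c β L A₀ AB AX)
    (hgen : ∀ (E : ℕ → ℕ) (P : Finset ℕ), Pr E L P → N₀ ≤ P.card →
      ∀ w : ℕ → ℝ, (∀ t, 0 ≤ w t) → 0 < ∑ t ∈ (MP E P).divisors, w t →
      (∀ t ∈ (MP E P).divisors, w t * (MP E P).divisors.card ≤
        Real.exp (ε₀ * P.card) * ∑ t ∈ (MP E P).divisors, w t) →
      ∃ p ∈ P, ∀ r : (p : ℕ) → ZMod p, ∑ t ∈ (MP E P).divisors, w t * cd r p t ≤
        β * ∑ t ∈ (MP E P).divisors, w t)
    (hε₀ : 0 < ε₀) (hv : N₀ ≤ v) (hS₀ : α * S₀ ≤ ε₀ * v) :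
    ∀ (j : ℕ) (E : ℕ → ℕ) (P : Finset ℕ), Pr E L P → P.card = v + j → ∀ X B : Finset ℤ,
      X.Nonempty → B.Nonempty → Real.log (X.card * B.card) ≤ S₀ →
      TS α (MP E P).divisors X B ≤ (MP E P).divisors.card *
        ((X.card : ℝ) * B.card) ^ (1 + α * δ) *
        ((AB : ℝ) ^ α * Real.exp (α * max (Real.log (X.card * B.card) - c * j) 0)) := by
  have hAB1 : (1 : ℝ) ≤ AB := by exact_mod_cast hcn.AB1
  have hABα : 1 ≤ (AB : ℝ) ^ α := Real.one_le_rpow hAB1 hα.le
  intro j
  induction j with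
  | zero =>
    intro E P hP hPc X B hX hB _
    have cX : (1 : ℝ) ≤ X.card := by exact_mod_cast hX.card_pos
    have cB : (1 : ℝ) ≤ B.card := by exact_mod_cast hB.card_pos
    have hn1 : 1 ≤ (X.card : ℝ) * B.card := by nlinarith
    have hn0 : 0 < (X.card : ℝ) * B.card := by linarith
    refine (TS_le_of fun t _ => NE_triv hα.le (t : ℤ) hB).trans ?_
    rw [mul_assoc ((MP E P).divisors.card : ℝ)]
    refine mul_le_mul_of_nonneg_left ?_ (Nat.cast_nonneg _)
    have h1 : (X.card : ℝ) * B.card ≤ ((X.card : ℝ) * B.card) ^ (1 + α * δ) := by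
      calc (X.card : ℝ) * B.card = ((X.card : ℝ) * B.card) ^ (1 : ℝ) := (Real.rpow_one _).symm
        _ ≤ _ := Real.rpow_le_rpow_of_exponent_le hn1 (by
            have : 0 ≤ α * δ := by positivity
            linarith)
    have h2 : ((X.card : ℝ) * B.card) ^ α ≤ (AB : ℝ) ^ α *
        Real.exp (α * max (Real.log (X.card * B.card) - c * (0 : ℕ)) 0) := by
      have h3 : ((X.card : ℝ) * B.card) ^ α ≤
          Real.exp (α * max (Real.log (X.card * B.card) - c * (0 : ℕ)) 0) := by
        rw [Real.rpow_def_of_pos hn0, mul_comm]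
        refine Real.exp_le_exp.2 (mul_le_mul_of_nonneg_left ?_ hα.le)
        simp
      calc _ ≤ _ := h3
        _ = 1 * Real.exp (α * max (Real.log (X.card * B.card) - c * (0 : ℕ)) 0) :=
            (one_mul _).symm
        _ ≤ _ := mul_le_mul_of_nonneg_right hABα (Real.exp_pos _).le
    exact mul_le_mul h1 h2 (by positivity) (by positivity)
  | succ j ih =>
    intro E P hP hPc X B hX hB hSz
    have cX : (1 : ℝ) ≤ X.card := by exact_mod_cast hX.card_pos
    have cB : (1 : ℝ) ≤ B.card := by exact_mod_cast hB.card_pos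
    have hn1 : 1 ≤ (X.card : ℝ) * B.card := by nlinarith
    have hn0 : 0 < (X.card : ℝ) * B.card := by linarith
    have hM0 : MP E P ≠ 0 := (MP_pos hP.prime).ne'
    by_cases hsmall : X.card ≤ AB ∨ B.card ≤ AB
    · -- small sets
      refine (TS_le_of fun t ht => NE_small hα.le (t := (t : ℤ)) ?_ hsmall).trans ?_
      · have := Nat.pos_of_mem_divisors ht
        exact_mod_cast this.ne'
      rw [mul_assoc ((MP E P).divisors.card : ℝ)]
      refine mul_le_mul_of_nonneg_left ?_ (Nat.cast_nonneg _)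
      have h1 : (X.card : ℝ) * B.card ≤ ((X.card : ℝ) * B.card) ^ (1 + α * δ) := by
        calc (X.card : ℝ) * B.card = ((X.card : ℝ) * B.card) ^ (1 : ℝ) := (Real.rpow_one _).symm
          _ ≤ _ := Real.rpow_le_rpow_of_exponent_le hn1 (by
              have : 0 ≤ α * δ := by positivity
              linarith)
      refine mul_le_mul h1 ?_ (by positivity) (by positivity)
      calc (AB : ℝ) ^ α = (AB : ℝ) ^ α * 1 := (mul_one _).symm
        _ ≤ _ := mul_le_mul_of_nonneg_left (Real.one_le_exp (by positivity)) (by positivity)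
    push Not at hsmall
    obtain ⟨hXAB, hBAB⟩ := hsmall
    -- the weights
    set w : ℕ → ℝ := fun t => NE α (t : ℤ) (X ×ˢ B) with hw
    have hcardW : ((X ×ˢ B).card : ℝ) = X.card * B.card := by
      rw [Finset.card_product]; push_cast; rfl
    have hWge : ((MP E P).divisors.card : ℝ) * (X.card * B.card) ≤
        ∑ t ∈ (MP E P).divisors, w t := by
      rw [← nsmul_eq_mul, ← Finset.sum_const]
      refine Finset.sum_le_sum fun t _ => ?_
      rw [← hcardW]
      exact card_le_NE hα.le _ _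
    have hdiv0 : (0 : ℝ) < (MP E P).divisors.card := by
      exact_mod_cast Finset.card_pos.2 ⟨1, Nat.one_mem_divisors.2 hM0⟩
    have hWpos : 0 < ∑ t ∈ (MP E P).divisors, w t :=
      lt_of_lt_of_le (mul_pos hdiv0 hn0) hWge
    have hvP : (v : ℝ) ≤ P.card := by exact_mod_cast (by omega : v ≤ P.card)
    obtain ⟨p, hp, hpg⟩ := hgen E P hP (by omega) w (fun t => NE_nonneg _ _ _) hWpos (by
      intro t _
      have h1 := NE_triv (X := X) hα.le (t : ℤ) hB
      have h2 : ((X.card : ℝ) * B.card) ^ α ≤ Real.exp (ε₀ * P.card) := by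
        rw [Real.rpow_def_of_pos hn0]
        refine Real.exp_le_exp.2 ?_
        have h3 : α * Real.log (X.card * B.card) ≤ α * S₀ := mul_le_mul_of_nonneg_left hSz hα.le
        have h4 : ε₀ * v ≤ ε₀ * P.card := mul_le_mul_of_nonneg_left hvP hε₀.le
        linarith
      calc w t * (MP E P).divisors.card ≤
          (X.card * B.card * Real.exp (ε₀ * P.card)) * (MP E P).divisors.card := by
            refine mul_le_mul_of_nonneg_right (h1.trans ?_) (Nat.cast_nonneg _)
            exact mul_le_mul_of_nonneg_left h2 hn0.le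
        _ = Real.exp (ε₀ * P.card) * ((MP E P).divisors.card * (X.card * B.card)) := by ring
        _ ≤ _ := mul_le_mul_of_nonneg_left hWge (Real.exp_pos _).le)
    have hpp := hP.prime p hp
    set T := (MP E (P.erase p)).divisors with hT
    have hPe : ∀ q ∈ P.erase p, q.Prime := fun q hq => hP.prime q (Finset.mem_of_mem_erase hq)
    have hTp : ∀ t ∈ T, ¬ p ∣ t := by
      intro t ht hpt
      have h1 := coprime_MP (E := E) hpp hPe (Finset.notMem_erase p P)
      have h2 : p ∣ MP E (P.erase p) := hpt.trans (Nat.dvd_of_mem_divisors ht)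
      have h3 := Nat.Coprime.eq_one_of_dvd h1 h2
      exact hpp.one_lt.ne' h3
    have hTsub : T ⊆ (MP E P).divisors := by
      intro t ht
      rw [Nat.mem_divisors]
      refine ⟨(Nat.dvd_of_mem_divisors ht).trans ?_, hM0⟩
      have h1 : MP E P = p ^ E p * MP E (P.erase p) := by
        rw [← MP_insert (Finset.notMem_erase p P), Finset.insert_erase hp]
      rw [h1]
      exact dvd_mul_left _ _
    obtain ⟨S, hS⟩ : ∃ S : ℝ, S = Real.log (X.card * B.card) := ⟨_, rfl⟩
    have hst := step (K := (AB : ℝ) ^ α * Real.exp (α * max (S - c * j) 0)) (p := p) (e := E p)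
      (T := T) (X := X) (B := B) hcn hα hδ hc hβ.le (by positivity) hpp (hP.one p hp) (hP.le p hp)
      hTp (by omega) (by omega) (by
        intro X' B' hX' hB' hle
        have cX' : (1 : ℝ) ≤ X'.card := by exact_mod_cast hX'.card_pos
        have cB' : (1 : ℝ) ≤ B'.card := by exact_mod_cast hB'.card_pos
        have hn0' : 0 < (X'.card : ℝ) * B'.card := by nlinarith
        have hlog : Real.log (X'.card * B'.card) ≤ S := by
          rw [hS]; exact Real.log_le_log hn0' hle
        have h1 := ih E (P.erase p) (hP.mono (Finset.erase_subset _ _))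
          (by rw [Finset.card_erase_of_mem hp]; omega) X' B' hX' hB'
          (hlog.trans (by rw [hS]; exact hSz))
        refine h1.trans (mul_le_mul_of_nonneg_left ?_ (by positivity))
        refine mul_le_mul_of_nonneg_left (Real.exp_le_exp.2 ?_) (by positivity)
        refine mul_le_mul_of_nonneg_left ?_ hα.le
        exact max_le_max (by linarith) le_rfl) (by
        intro U hU hUp
        have hWe : ∑ i ∈ Finset.range (E p + 1), ∑ t ∈ T, NE α ((p : ℤ) ^ i * t) (X ×ˢ B) =
            ∑ t ∈ (MP E P).divisors, w t := by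
          rw [← TS_erase hP.prime hp]
          rfl
        rw [hWe]
        rcases U.eq_empty_or_nonempty with h0 | ⟨t₀, ht₀⟩
        · rw [h0, Finset.sum_empty]
          exact mul_nonneg hβ.le hWpos.le
        refine le_trans ?_ (hpg fun q => (t₀ : ZMod q))
        have h1 : ∑ t ∈ U, NE α (t : ℤ) (X ×ˢ B) =
            ∑ t ∈ U, w t * cd (fun q => (t₀ : ZMod q)) p t := by
          refine Finset.sum_congr rfl fun t ht => ?_
          have h2 : (t : ZMod p) = (t₀ : ZMod p) := by
            have h3 := hUp t ht t₀ ht₀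
            have h4 := (ZMod.intCast_zmod_eq_zero_iff_dvd _ p).2 h3
            push_cast at h4
            exact sub_eq_zero.1 h4
          have h3 : cd (fun q => (t₀ : ZMod q)) p t = 1 := by
            unfold cd
            rw [if_pos ⟨hTp t (hU ht), h2⟩]
          rw [h3, mul_one]
        rw [h1]
        refine Finset.sum_le_sum_of_subset_of_nonneg (hU.trans hTsub) fun t _ _ => ?_
        exact mul_nonneg (NE_nonneg _ _ _) (cd_nonneg _ _ _))
    rw [TS_erase hP.prime hp, card_erase' hP.prime hp]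
    refine hst.trans ?_
    have h1 : Real.exp (α * max (S - c * j) 0) * (1 - c * α) ≤
        Real.exp (α * max (S - c * ((j + 1 : ℕ) : ℝ)) 0) := by
      have h2 : 1 - c * α ≤ Real.exp (-(c * α)) := by
        have := Real.add_one_le_exp (-(c * α))
        linarith
      calc _ ≤ Real.exp (α * max (S - c * j) 0) * Real.exp (-(c * α)) :=
            mul_le_mul_of_nonneg_left h2 (Real.exp_pos _).le
        _ = Real.exp (α * (max (S - c * j) 0 - c)) := by
            rw [← Real.exp_add]; congr 1; ring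
        _ ≤ _ := by
            refine Real.exp_le_exp.2 (mul_le_mul_of_nonneg_left ?_ hα.le)
            push_cast
            rcases le_total (S - c * j) 0 with h | h
            · rw [max_eq_right h]
              exact (by linarith : (0 : ℝ) - c ≤ 0).trans (le_max_right _ _)
            · rw [max_eq_left h]
              refine le_trans (le_of_eq ?_) (le_max_left _ _)
              ring
    have h3 : 0 ≤ (T.card : ℝ) * ((X.card : ℝ) * B.card) ^ (1 + α * δ) * (AB : ℝ) ^ α *
        (E p + 1) := by positivity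
    have h4 := mul_le_mul_of_nonneg_left h1 h3
    rw [← hS]
    calc _ = (T.card : ℝ) * ((X.card : ℝ) * B.card) ^ (1 + α * δ) * (AB : ℝ) ^ α *
        (E p + 1) * (Real.exp (α * max (S - c * j) 0) * (1 - c * α)) := by ring
      _ ≤ _ := h4
      _ = _ := by ring

/-- the energy theorem -/
theorem energy_main (δ θ : ℝ) (L : ℕ) (hδ : 0 < δ) (hθ : 0 < θ) (hL : 1 ≤ L) :
    ∃ α : ℝ, 0 < α ∧ α ≤ 1 ∧ ∃ C : ℝ, 0 < C ∧ ∀ (E : ℕ → ℕ) (P : Finset ℕ), Pr E L P →
      ∀ X B : Finset ℤ, X.Nonempty → B.Nonempty →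
        θ * Real.log (X.card * B.card) ≤ P.card →
        TS α (MP E P).divisors X B ≤
          C * (MP E P).divisors.card * ((X.card : ℝ) * B.card) ^ (1 + α * δ) := by
  obtain ⟨A₀, AB, AX, β, hβ0, hβ1, hAA, α₁, hα₁0, hα₁1, hcn⟩ :=
    exists_cn δ (2 / θ) L hδ (by positivity)
  obtain ⟨ε₀, hε₀, N₀, hgen⟩ := generic β hβ0 hβ1 L hL
  obtain ⟨α, hα⟩ : ∃ α : ℝ, α = min α₁ (ε₀ * θ / 3) := ⟨_, rfl⟩
  have hα0 : 0 < α := by rw [hα]; exact lt_min hα₁0 (by positivity)
  have hαα₁ : α ≤ α₁ := by rw [hα]; exact min_le_left _ _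
  have hαε : α ≤ ε₀ * θ / 3 := by rw [hα]; exact min_le_right _ _
  have hc := hcn α hα0 hαα₁
  have hAB1 : (1 : ℝ) ≤ AB := by exact_mod_cast hc.AB1
  obtain ⟨n₁, hn₁⟩ : ∃ n₁ : ℕ, n₁ = 2 * N₀ + 3 := ⟨_, rfl⟩
  refine ⟨α, hα0, hαα₁.trans hα₁1, max ((AB : ℝ) ^ α) (Real.exp (α * (n₁ / θ))),
    lt_max_of_lt_right (Real.exp_pos _), ?_⟩
  intro E P hP X B hX hB hS
  have cX : (1 : ℝ) ≤ X.card := by exact_mod_cast hX.card_pos
  have cB : (1 : ℝ) ≤ B.card := by exact_mod_cast hB.card_pos
  have hn1 : 1 ≤ (X.card : ℝ) * B.card := by nlinarith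
  have hn0 : 0 < (X.card : ℝ) * B.card := by linarith
  have hSn : Real.log (X.card * B.card) ≤ P.card / θ := by
    rw [le_div_iff₀ hθ, mul_comm]; exact hS
  by_cases hcase : P.card < n₁
  · -- few primes
    refine (TS_le_of fun t _ => NE_triv hα0.le (t : ℤ) hB).trans ?_
    have h1 : (X.card : ℝ) * B.card ≤ ((X.card : ℝ) * B.card) ^ (1 + α * δ) := by
      calc (X.card : ℝ) * B.card = ((X.card : ℝ) * B.card) ^ (1 : ℝ) := (Real.rpow_one _).symm
        _ ≤ _ := Real.rpow_le_rpow_of_exponent_le hn1 (by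
            have : 0 ≤ α * δ := by positivity
            linarith)
    have h2 : ((X.card : ℝ) * B.card) ^ α ≤ max ((AB : ℝ) ^ α) (Real.exp (α * (n₁ / θ))) := by
      refine le_trans ?_ (le_max_right _ _)
      rw [Real.rpow_def_of_pos hn0, mul_comm]
      refine Real.exp_le_exp.2 (mul_le_mul_of_nonneg_left (hSn.trans ?_) hα0.le)
      refine div_le_div_of_nonneg_right ?_ hθ.le
      exact_mod_cast hcase.le
    calc _ ≤ (MP E P).divisors.card * (((X.card : ℝ) * B.card) ^ (1 + α * δ) *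
          max ((AB : ℝ) ^ α) (Real.exp (α * (n₁ / θ)))) :=
          mul_le_mul_of_nonneg_left (mul_le_mul h1 h2 (by positivity) (by positivity))
            (Nat.cast_nonneg _)
      _ = _ := by ring
  push Not at hcase
  obtain ⟨n, hn⟩ : ∃ n : ℕ, n = P.card := ⟨_, rfl⟩
  obtain ⟨v, hv⟩ : ∃ v : ℕ, v = n / 2 := ⟨_, rfl⟩
  have hvN : N₀ ≤ v := by omega
  have hn3 : 3 ≤ n := by omega
  have hv3 : (n : ℝ) / 3 ≤ v := by
    have h1 : n ≤ 3 * v := by omega
    have h2 : (n : ℝ) ≤ 3 * v := by exact_mod_cast h1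
    linarith
  rw [← hn] at hSn
  have h := induction_step (S₀ := n / θ) hδ (by positivity : (0 : ℝ) ≤ 2 / θ) hβ0 hα0 hAA hc hgen
    hε₀ hvN (by
      have h1 : α * (n / θ) ≤ ε₀ * θ / 3 * (n / θ) :=
        mul_le_mul_of_nonneg_right hαε (by positivity)
      have h2 : ε₀ * θ / 3 * (n / θ) = ε₀ * (n / 3) := by field_simp
      rw [h2] at h1
      exact h1.trans (mul_le_mul_of_nonneg_left hv3 hε₀.le)) (n - v) E P hP (by omega) X B hX hB
      hSn
  have hmax : max (Real.log (X.card * B.card) - 2 / θ * ((n - v : ℕ) : ℝ)) 0 = 0 := by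
    apply max_eq_right
    have h1 : n ≤ 2 * (n - v) := by omega
    have h2 : (n : ℝ) ≤ 2 * ((n - v : ℕ) : ℝ) := by exact_mod_cast h1
    have h3 : (n : ℝ) / θ ≤ 2 / θ * ((n - v : ℕ) : ℝ) := by
      rw [div_mul_eq_mul_div]
      exact div_le_div_of_nonneg_right h2 hθ.le
    linarith
  rw [hmax, mul_zero, Real.exp_zero, mul_one] at h
  refine h.trans ?_
  have h1 : (AB : ℝ) ^ α ≤ max ((AB : ℝ) ^ α) (Real.exp (α * (n₁ / θ))) := le_max_left _ _
  have h2 : 0 ≤ ((MP E P).divisors.card : ℝ) * ((X.card : ℝ) * B.card) ^ (1 + α * δ) := by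
    positivity
  have h3 := mul_le_mul_of_nonneg_left h1 h2
  linarith

end Pool.Agent.Run7.h386.DE
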