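import Pool.Agent.Run7.h386.DE.Cases

/-!
The induction step: one prime is split off.
-/

set_option autoImplicit false

namespace Pool.Agent.Run7.h386.DE

open Finset
open scoped Classical

/-- the sum of the energies -/
noncomputable def TS (α : ℝ) (T : Finset ℕ) (X B : Finset ℤ) : ℝ :=
  ∑ t ∈ T, NE α (t : ℤ) (X ×ˢ B)

/-- the induction hypothesis -/
def IHyp (α δ K : ℝ) (T : Finset ℕ) (M : ℝ) : Prop :=
  ∀ X B : Finset ℤ, X.Nonempty → B.Nonempty → (X.card : ℝ) * B.card ≤ M →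
    TS α T X B ≤ T.card * ((X.card : ℝ) * B.card) ^ (1 + α * δ) * K

variable {α δ K M : ℝ} {T : Finset ℕ}

lemma TS_nonneg (α : ℝ) (T : Finset ℕ) (X B : Finset ℤ) : 0 ≤ TS α T X B :=
  Finset.sum_nonneg fun _ _ => NE_nonneg _ _ _

lemma IHyp.use (h : IHyp α δ K T M) (hα : 0 ≤ α) (hδ : 0 ≤ δ) (hK : 0 ≤ K) {X B : Finset ℤ}
    {m : ℝ} (hm0 : 0 ≤ m) (h1 : (X.card : ℝ) * B.card ≤ m) (h2 : m ≤ M) :
    TS α T X B ≤ T.card * K * m ^ (α * δ) * (X.card * B.card) := by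
  have hm : 0 ≤ m ^ (α * δ) := Real.rpow_nonneg hm0 _
  rcases X.eq_empty_or_nonempty with hX | hX
  · subst hX
    simp [TS, NE]
  rcases B.eq_empty_or_nonempty with hB | hB
  · subst hB
    simp [TS, NE]
  have hX0 : (0 : ℝ) < X.card := by exact_mod_cast hX.card_pos
  have hB0 : (0 : ℝ) < B.card := by exact_mod_cast hB.card_pos
  refine (h X B hX hB (h1.trans h2)).trans ?_
  rw [Real.rpow_add (mul_pos hX0 hB0), Real.rpow_one]
  have h3 : ((X.card : ℝ) * B.card) ^ (α * δ) ≤ m ^ (α * δ) :=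
    Real.rpow_le_rpow (mul_pos hX0 hB0).le h1 (mul_nonneg hα hδ)
  have h4 : 0 ≤ (T.card : ℝ) * (X.card * B.card) * K := by positivity
  calc (T.card : ℝ) * ((X.card : ℝ) * B.card * ((X.card : ℝ) * B.card) ^ (α * δ)) * K =
      (T.card : ℝ) * (X.card * B.card) * K * ((X.card : ℝ) * B.card) ^ (α * δ) := by ring
    _ ≤ (T.card : ℝ) * (X.card * B.card) * K * m ^ (α * δ) := mul_le_mul_of_nonneg_left h3 h4
    _ = _ := by ring

/-- the sum over the classes -/
lemma sum_classes (Q : ℤ) (X B : Finset ℤ) (a : ℝ) :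
    ∑ r ∈ rs Q X, ∑ r' ∈ rs Q B, a * (((cl Q X r).card : ℝ) * (cl Q B r').card) =
      a * (X.card * B.card) := by
  rw [← sum_cl Q X, ← sum_cl Q B, Finset.sum_mul_sum, Finset.mul_sum]
  exact Finset.sum_congr rfl fun r _ => (Finset.mul_sum _ _ _).symm

lemma div_rpow_mul {n : ℝ} (hn : 0 ≤ n) {A : ℕ} (x : ℝ) :
    (n / A) ^ x = n ^ x * (A : ℝ) ^ (-x) := by
  rw [Real.div_rpow hn (Nat.cast_nonneg _), Real.rpow_neg (Nat.cast_nonneg _), div_eq_mul_inv]

/-- the gain from the second summand -/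
lemma gain_right (h : IHyp α δ K T M) (hα : 0 ≤ α) (hδ : 0 ≤ δ) (hK : 0 ≤ K) {Q : ℤ}
    {X B X' B' : Finset ℤ} (hM : (X.card : ℝ) * B.card ≤ M) (hX : X' ⊆ X) {C A : ℕ} (hA : 1 ≤ A)
    (hC : (rs Q X').card ≤ C) (hcl : ∀ r ∈ rs Q B', A * (cl Q B' r).card ≤ B.card) :
    TS α T X' B' ≤ (C : ℝ) ^ α * (A : ℝ) ^ (-(α * δ)) *
      (T.card * K * ((X.card : ℝ) * B.card) ^ (α * δ)) * (X'.card * B'.card) := by
  have hA0 : (0 : ℝ) < A := by exact_mod_cast hA
  have hn : 0 ≤ (X.card : ℝ) * B.card := by positivity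
  have hmM : (X.card : ℝ) * B.card / A ≤ M := by
    refine le_trans (div_le_self hn (by exact_mod_cast hA)) hM
  have h1 : ∀ r ∈ rs Q X', ∀ r' ∈ rs Q B', TS α T (cl Q X' r) (cl Q B' r') ≤
      T.card * K * ((X.card : ℝ) * B.card / A) ^ (α * δ) *
        ((cl Q X' r).card * (cl Q B' r').card) := by
    intro r _ r' hr'
    refine h.use hα hδ hK (by positivity) ?_ hmM
    rw [le_div_iff₀ hA0]
    have h2 : ((cl Q X' r).card : ℝ) ≤ X.card := by
      exact_mod_cast Finset.card_le_card ((cl_sub _ _ _).trans hX)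
    have h3 : (A : ℝ) * (cl Q B' r').card ≤ B.card := by exact_mod_cast hcl r' hr'
    calc ((cl Q X' r).card : ℝ) * (cl Q B' r').card * A =
        (cl Q X' r).card * (A * (cl Q B' r').card) := by ring
      _ ≤ _ := mul_le_mul h2 h3 (by positivity) (by positivity)
  calc TS α T X' B' ≤ ∑ t ∈ T, (C : ℝ) ^ α * ∑ r ∈ rs Q X', ∑ r' ∈ rs Q B',
        NE α (t : ℤ) (cl Q X' r ×ˢ cl Q B' r') := by
        refine Finset.sum_le_sum fun t _ => (split_right hα t Q X' B').trans ?_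
        refine mul_le_mul_of_nonneg_right (Real.rpow_le_rpow (Nat.cast_nonneg _)
          (by exact_mod_cast hC) hα) ?_
        exact Finset.sum_nonneg fun _ _ => Finset.sum_nonneg fun _ _ => NE_nonneg _ _ _
    _ = (C : ℝ) ^ α * ∑ r ∈ rs Q X', ∑ r' ∈ rs Q B', TS α T (cl Q X' r) (cl Q B' r') := by
        rw [← Finset.mul_sum, Finset.sum_comm]
        congr 1
        refine Finset.sum_congr rfl fun r _ => ?_
        rw [Finset.sum_comm]
        rfl
    _ ≤ (C : ℝ) ^ α * ∑ r ∈ rs Q X', ∑ r' ∈ rs Q B',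
        T.card * K * ((X.card : ℝ) * B.card / A) ^ (α * δ) *
          ((cl Q X' r).card * (cl Q B' r').card) := by
        refine mul_le_mul_of_nonneg_left ?_ (Real.rpow_nonneg (Nat.cast_nonneg _) _)
        exact Finset.sum_le_sum fun r hr => Finset.sum_le_sum fun r' hr' => h1 r hr r' hr'
    _ = _ := by
        rw [sum_classes, div_rpow_mul hn]
        ring

/-- the gain from the first summand, for units -/
lemma gain_left (h : IHyp α δ K T M) (hα : 0 ≤ α) (hδ : 0 ≤ δ) (hK : 0 ≤ K) {Q : ℤ}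
    (hT : ∀ t ∈ T, IsCoprime Q (t : ℤ))
    {X B X' B' : Finset ℤ} (hM : (X.card : ℝ) * B.card ≤ M) (hB : B' ⊆ B) {C A : ℕ} (hA : 1 ≤ A)
    (hC : (rs Q B').card ≤ C) (hcl : ∀ r ∈ rs Q X', A * (cl Q X' r).card ≤ X.card) :
    TS α T X' B' ≤ (C : ℝ) ^ α * (A : ℝ) ^ (-(α * δ)) *
      (T.card * K * ((X.card : ℝ) * B.card) ^ (α * δ)) * (X'.card * B'.card) := by
  have hA0 : (0 : ℝ) < A := by exact_mod_cast hA
  have hn : 0 ≤ (X.card : ℝ) * B.card := by positivity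
  have hmM : (X.card : ℝ) * B.card / A ≤ M := by
    refine le_trans (div_le_self hn (by exact_mod_cast hA)) hM
  have h1 : ∀ r ∈ rs Q B', ∀ r' ∈ rs Q X', TS α T (cl Q X' r') (cl Q B' r) ≤
      T.card * K * ((X.card : ℝ) * B.card / A) ^ (α * δ) *
        ((cl Q B' r).card * (cl Q X' r').card) := by
    intro r _ r' hr'
    rw [mul_comm ((cl Q B' r).card : ℝ)]
    refine h.use hα hδ hK (by positivity) ?_ hmM
    rw [le_div_iff₀ hA0]
    have h2 : ((cl Q B' r).card : ℝ) ≤ B.card := by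
      exact_mod_cast Finset.card_le_card ((cl_sub _ _ _).trans hB)
    have h3 : (A : ℝ) * (cl Q X' r').card ≤ X.card := by exact_mod_cast hcl r' hr'
    calc ((cl Q X' r').card : ℝ) * (cl Q B' r).card * A =
        (A * (cl Q X' r').card) * (cl Q B' r).card := by ring
      _ ≤ _ := mul_le_mul h3 h2 (by positivity) (by positivity)
  calc TS α T X' B' ≤ ∑ t ∈ T, (C : ℝ) ^ α * ∑ r ∈ rs Q B', ∑ r' ∈ rs Q X',
        NE α (t : ℤ) (cl Q X' r' ×ˢ cl Q B' r) := by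
        refine Finset.sum_le_sum fun t ht => (split_left hα (hT t ht) X' B').trans ?_
        refine mul_le_mul_of_nonneg_right (Real.rpow_le_rpow (Nat.cast_nonneg _)
          (by exact_mod_cast hC) hα) ?_
        exact Finset.sum_nonneg fun _ _ => Finset.sum_nonneg fun _ _ => NE_nonneg _ _ _
    _ = (C : ℝ) ^ α * ∑ r ∈ rs Q B', ∑ r' ∈ rs Q X', TS α T (cl Q X' r') (cl Q B' r) := by
        rw [← Finset.mul_sum, Finset.sum_comm]
        congr 1
        refine Finset.sum_congr rfl fun r _ => ?_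
        rw [Finset.sum_comm]
        rfl
    _ ≤ (C : ℝ) ^ α * ∑ r ∈ rs Q B', ∑ r' ∈ rs Q X',
        T.card * K * ((X.card : ℝ) * B.card / A) ^ (α * δ) *
          ((cl Q B' r).card * (cl Q X' r').card) := by
        refine mul_le_mul_of_nonneg_left ?_ (Real.rpow_nonneg (Nat.cast_nonneg _) _)
        exact Finset.sum_le_sum fun r hr => Finset.sum_le_sum fun r' hr' => h1 r hr r' hr'
    _ = _ := by
        rw [sum_classes, div_rpow_mul hn]
        ring

/-- the generic case -/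
lemma gain_gen (h : IHyp α δ K T M) (hα : 0 ≤ α) (hδ : 0 ≤ δ) (hK : 0 ≤ K) {Q : ℤ}
    {X B X' B' : Finset ℤ} (hM : (X.card : ℝ) * B.card ≤ M) (hX : X' ⊆ X) (hB : B' ⊆ B)
    {C A : ℕ} (hA : 1 ≤ A) (hC1 : 1 ≤ C)
    (hC : (rs Q X').card ≤ C) (hcl : ∀ r ∈ rs Q X', A * (cl Q X' r).card ≤ X.card)
    (S : Finset ℕ) (hS : S ⊆ T)
    (hg : ∀ t ∈ T, t ∉ S → ∀ x ∈ X', ∀ x' ∈ X', ∀ b ∈ B', ∀ b' ∈ B',
      (t : ℤ) * x + b = t * x' + b' → x % Q = x' % Q) :
    TS α T X' B' ≤ (A : ℝ) ^ (-(α * δ)) *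
      (T.card * K * ((X.card : ℝ) * B.card) ^ (α * δ)) * (X'.card * B'.card) +
      ((C : ℝ) ^ α - 1) * ∑ t ∈ S, NE α (t : ℤ) (X ×ˢ B) := by
  have hA0 : (0 : ℝ) < A := by exact_mod_cast hA
  have hn : 0 ≤ (X.card : ℝ) * B.card := by positivity
  have hmM : (X.card : ℝ) * B.card / A ≤ M := by
    refine le_trans (div_le_self hn (by exact_mod_cast hA)) hM
  have hCα : 1 ≤ (C : ℝ) ^ α := Real.one_le_rpow (by exact_mod_cast hC1) hα
  have h1 : ∀ r ∈ rs Q X', TS α T (cl Q X' r) B' ≤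
      T.card * K * ((X.card : ℝ) * B.card / A) ^ (α * δ) * ((cl Q X' r).card * B'.card) := by
    intro r hr
    refine h.use hα hδ hK (by positivity) ?_ hmM
    rw [le_div_iff₀ hA0]
    have h2 : (B'.card : ℝ) ≤ B.card := by exact_mod_cast Finset.card_le_card hB
    have h3 : (A : ℝ) * (cl Q X' r).card ≤ X.card := by exact_mod_cast hcl r hr
    calc ((cl Q X' r).card : ℝ) * B'.card * A = (A * (cl Q X' r).card) * B'.card := by ring
      _ ≤ _ := mul_le_mul h3 h2 (by positivity) (by positivity)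
  have h2 : ∀ t ∈ T, NE α (t : ℤ) (X' ×ˢ B') ≤ ∑ r ∈ rs Q X', NE α (t : ℤ) (cl Q X' r ×ˢ B') +
      if t ∈ S then ((C : ℝ) ^ α - 1) * NE α (t : ℤ) (X ×ˢ B) else 0 := by
    intro t ht
    split_ifs with hts
    · have h3 := split_any hα (t : ℤ) Q X' B'
      have h4 := super_any hα (t : ℤ) Q X' B'
      have h5 : NE α (t : ℤ) (X' ×ˢ B') ≤ NE α (t : ℤ) (X ×ˢ B) :=
        NE_mono hα (Finset.product_subset_product hX hB)
      have h6 : ((rs Q X').card : ℝ) ^ α ≤ (C : ℝ) ^ α :=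
        Real.rpow_le_rpow (Nat.cast_nonneg _) (by exact_mod_cast hC) hα
      obtain ⟨s, hs⟩ : ∃ s : ℝ, s = ∑ r ∈ rs Q X', NE α (t : ℤ) (cl Q X' r ×ˢ B') := ⟨_, rfl⟩
      rw [← hs] at h3 h4 ⊢
      have hs0 : 0 ≤ s := by rw [hs]; exact Finset.sum_nonneg fun _ _ => NE_nonneg _ _ _
      have h7 := mul_le_mul_of_nonneg_right h6 hs0
      have h8 := mul_le_mul_of_nonneg_left (h4.trans h5) (by linarith : 0 ≤ (C : ℝ) ^ α - 1)
      linarith
    · rw [add_zero, split_gen (t : ℤ) Q X' B' (hg t ht hts)]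
  calc TS α T X' B' ≤ ∑ t ∈ T, (∑ r ∈ rs Q X', NE α (t : ℤ) (cl Q X' r ×ˢ B') +
        if t ∈ S then ((C : ℝ) ^ α - 1) * NE α (t : ℤ) (X ×ˢ B) else 0) := Finset.sum_le_sum h2
    _ = ∑ r ∈ rs Q X', TS α T (cl Q X' r) B' +
        ((C : ℝ) ^ α - 1) * ∑ t ∈ S, NE α (t : ℤ) (X ×ˢ B) := by
        rw [Finset.sum_add_distrib, Finset.sum_comm, Finset.sum_ite_mem,
          Finset.inter_eq_right.2 hS, Finset.mul_sum]
        rfl
    _ ≤ ∑ r ∈ rs Q X', T.card * K * ((X.card : ℝ) * B.card / A) ^ (α * δ) *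
          ((cl Q X' r).card * B'.card) +
        ((C : ℝ) ^ α - 1) * ∑ t ∈ S, NE α (t : ℤ) (X ×ˢ B) :=
        add_le_add (Finset.sum_le_sum h1) le_rfl
    _ = _ := by
        rw [← Finset.mul_sum, ← Finset.sum_mul, sum_cl, div_rpow_mul hn]
        ring

/-- adding the rest -/
lemma combine (h : IHyp α δ K T M) (hα : 0 ≤ α) (hδ : 0 ≤ δ) (hK : 0 ≤ K)
    {X B X' B' : Finset ℤ} (hM : (X.card : ℝ) * B.card ≤ M) (hX : X' ⊆ X) (hB : B' ⊆ B)
    {g err : ℝ} (hg : g ≤ 1) (h8 : (X.card : ℝ) * B.card ≤ 8 * (X'.card * B'.card))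
    (h1 : TS α T X' B' ≤ g * (T.card * K * ((X.card : ℝ) * B.card) ^ (α * δ)) *
      (X'.card * B'.card) + err) :
    TS α T X B ≤ 3 ^ α * ((1 - (1 - g) / 8) * (T.card * K * ((X.card : ℝ) * B.card) ^ (α * δ)) *
      (X.card * B.card) + err) := by
  obtain ⟨N, hN⟩ : ∃ N : ℝ, N = T.card * K * ((X.card : ℝ) * B.card) ^ (α * δ) := ⟨_, rfl⟩
  have hn : 0 ≤ (X.card : ℝ) * B.card := by positivity
  have hN0 : 0 ≤ N := by rw [hN]; positivity
  rw [← hN] at h1 ⊢
  have h3 : (0 : ℝ) ≤ 3 ^ α := Real.rpow_nonneg (by norm_num) _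
  have e1 : ((X \ X').card : ℝ) = X.card - X'.card := by
    rw [Finset.card_sdiff_of_subset hX, Nat.cast_sub (Finset.card_le_card hX)]
  have e2 : ((B \ B').card : ℝ) = B.card - B'.card := by
    rw [Finset.card_sdiff_of_subset hB, Nat.cast_sub (Finset.card_le_card hB)]
  have hX' : (X'.card : ℝ) ≤ X.card := by exact_mod_cast Finset.card_le_card hX
  have hB' : (B'.card : ℝ) ≤ B.card := by exact_mod_cast Finset.card_le_card hB
  have hX0 : (0 : ℝ) ≤ X'.card := Nat.cast_nonneg _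
  have hB0 : (0 : ℝ) ≤ B'.card := Nat.cast_nonneg _
  have h4 : TS α T (X \ X') B ≤ N * ((X.card - X'.card) * B.card) := by
    have := h.use (X := X \ X') (B := B) hα hδ hK hn (by
      rw [e1]; exact mul_le_mul_of_nonneg_right (by linarith) (Nat.cast_nonneg _)) hM
    rw [e1, ← hN] at this
    exact this
  have h5 : TS α T X' (B \ B') ≤ N * (X'.card * (B.card - B'.card)) := by
    have := h.use (X := X') (B := B \ B') hα hδ hK hn (by
      rw [e2]; exact mul_le_mul hX' (by linarith) (by linarith) (by linarith)) hM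
    rw [e2, ← hN] at this
    exact this
  have h6 : TS α T X B ≤ 3 ^ α * (TS α T X' B' + (TS α T (X \ X') B + TS α T X' (B \ B'))) := by
    unfold TS
    rw [← Finset.sum_add_distrib, ← Finset.sum_add_distrib, Finset.mul_sum]
    exact Finset.sum_le_sum fun t _ => split_three hα t hX hB
  refine h6.trans (mul_le_mul_of_nonneg_left ?_ h3)
  have h7 : 0 ≤ (1 - g) * N := mul_nonneg (by linarith) hN0
  have h9 := mul_le_mul_of_nonneg_left h8 h7
  nlinarith

end Pool.Agent.Run7.h386.DE
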