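import Pool.Agent.Run7.h386.DE.Step

/-!
The induction step: the choice of the level and the three cases.
-/

set_option autoImplicit false

namespace Pool.Agent.Run7.h386.DE

open Finset
open scoped Classical

/-- the constants -/
structure Cn (α δ c β : ℝ) (L A₀ AB AX : ℕ) : Prop where
  A0 : 2 ≤ A₀
  AB1 : 1 ≤ AB
  AX1 : 1 ≤ AX
  g1 : (A₀ : ℝ) ^ α * (AB : ℝ) ^ (-(α * δ)) ≤ 1
  k1 : 3 ^ α * (1 - (1 - (A₀ : ℝ) ^ α * (AB : ℝ) ^ (-(α * δ))) / 8) ≤ 1 - (L + 1) * c * α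
  g2 : (AB : ℝ) ^ α * (AX : ℝ) ^ (-(α * δ)) ≤ 1
  k2 : 3 ^ α * (1 - (1 - (AB : ℝ) ^ α * (AX : ℝ) ^ (-(α * δ))) / 8) ≤ 1 - (L + 1) * c * α
  g3 : (A₀ : ℝ) ^ (-(α * δ)) ≤ 1
  k3 : 3 ^ α * (1 - (1 - (A₀ : ℝ) ^ (-(α * δ))) / 8 +
    ((AX : ℝ) ^ α - 1) * (((AX : ℝ) * AB) ^ 2 * (β * (L + 1)))) ≤ 1 - (L + 1) * c * α

/-- sum over a covering -/
lemma sum_le_cover {ι : Type*} (S : Finset ℕ) (KK : Finset ι) (V : ι → Finset ℕ) (w : ℕ → ℝ)
    (hw : ∀ t, 0 ≤ w t) (h : ∀ t ∈ S, ∃ k ∈ KK, t ∈ V k) {b : ℝ}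
    (hb : ∀ k ∈ KK, ∑ t ∈ V k, w t ≤ b) : ∑ t ∈ S, w t ≤ KK.card * b := by
  calc ∑ t ∈ S, w t ≤ ∑ t ∈ S, ∑ k ∈ KK, (if t ∈ V k then w t else 0) := by
        refine Finset.sum_le_sum fun t ht => ?_
        obtain ⟨k, hk, htk⟩ := h t ht
        have := Finset.single_le_sum (f := fun k => if t ∈ V k then w t else 0)
          (fun k _ => by split_ifs <;> simp [hw]) hk
        simpa [htk] using this
    _ = ∑ k ∈ KK, ∑ t ∈ S, (if t ∈ V k then w t else 0) := Finset.sum_comm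
    _ ≤ ∑ _k ∈ KK, b := by
        refine Finset.sum_le_sum fun k hk => le_trans ?_ (hb k hk)
        rw [← Finset.sum_filter]
        refine Finset.sum_le_sum_of_subset_of_nonneg ?_ fun t _ _ => hw t
        intro t ht
        exact (Finset.mem_filter.1 ht).2
    _ = _ := by rw [Finset.sum_const, nsmul_eq_mul]

/-- the bad multipliers -/
noncomputable def bad (T : Finset ℕ) (Q : ℤ) (X' B' : Finset ℤ) : Finset ℕ :=
  T.filter fun t : ℕ => ∃ x ∈ X', ∃ x' ∈ X', ∃ b ∈ B', ∃ b' ∈ B',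
    (t : ℤ) * x + b = (t : ℤ) * x' + b' ∧ x % Q ≠ x' % Q

lemma bad_le {α β W : ℝ} {p I : ℕ} (hp : p.Prime) {T : Finset ℕ} {X B X' B' : Finset ℤ}
    {AX AB : ℕ} (hβW : 0 ≤ β * W)
    (hX' : (rs ((p : ℤ) ^ (I + 1)) X').card ≤ AX) (hB' : (rs ((p : ℤ) ^ (I + 1)) B').card ≤ AB)
    (hgen : ∀ S ⊆ T, (∀ t ∈ S, ∀ t' ∈ S, (p : ℤ) ∣ (t : ℤ) - t') →
      ∑ t ∈ S, NE α (t : ℤ) (X ×ˢ B) ≤ β * W) :
    ∑ t ∈ bad T ((p : ℤ) ^ (I + 1)) X' B', NE α (t : ℤ) (X ×ˢ B) ≤
      ((AX : ℝ) * AB) ^ 2 * (β * W) := by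
  set Q : ℤ := (p : ℤ) ^ (I + 1) with hQ
  set KK := (((rs Q X') ×ˢ (rs Q X')) ×ˢ ((rs Q B') ×ˢ (rs Q B'))).filter
    fun k => k.1.1 ≠ k.1.2 with hKK
  have hcard : (KK.card : ℝ) ≤ ((AX : ℝ) * AB) ^ 2 := by
    have h1 : KK.card ≤ (AX * AX) * (AB * AB) := by
      refine (Finset.card_le_card (Finset.filter_subset _ _)).trans ?_
      rw [Finset.card_product, Finset.card_product, Finset.card_product]
      exact Nat.mul_le_mul (Nat.mul_le_mul hX' hX') (Nat.mul_le_mul hB' hB')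
    have h2 : (KK.card : ℝ) ≤ ((AX * AX) * (AB * AB) : ℕ) := by exact_mod_cast h1
    refine h2.trans (le_of_eq ?_)
    push_cast
    ring
  refine (sum_le_cover (bad T Q X' B') KK (fun k => T.filter fun t : ℕ =>
    Q ∣ (t : ℤ) * (k.1.1 - k.1.2) + (k.2.1 - k.2.2)) (fun t => NE α (t : ℤ) (X ×ˢ B))
    (fun t => NE_nonneg _ _ _) ?_ (b := β * W) ?_).trans (mul_le_mul_of_nonneg_right hcard hβW)
  · intro t ht
    obtain ⟨htT, x, hx, x', hx', b, hb, b', hb', h1, h2⟩ := Finset.mem_filter.1 ht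
    refine ⟨((x % Q, x' % Q), (b % Q, b' % Q)), ?_, ?_⟩
    · rw [hKK, Finset.mem_filter]
      refine ⟨?_, h2⟩
      simp only [Finset.mem_product]
      exact ⟨⟨mem_rs hx, mem_rs hx'⟩, ⟨mem_rs hb, mem_rs hb'⟩⟩
    · refine Finset.mem_filter.2 ⟨htT, ?_⟩
      simp only
      have e1 : ∀ y : ℤ, Q ∣ y - y % Q := fun y => by
        rw [← emod_eq_iff]
        exact (Int.emod_emod_of_dvd y dvd_rfl).symm
      have h3 : (t : ℤ) * (x % Q - x' % Q) + (b % Q - b' % Q) =
          ((t : ℤ) * x + b - (t * x' + b')) - ((t : ℤ) * ((x - x % Q) - (x' - x' % Q)) +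
            ((b - b % Q) - (b' - b' % Q))) := by ring
      rw [h3, h1, sub_self]
      refine dvd_sub (dvd_zero _) (dvd_add ?_ (dvd_sub (e1 _) (e1 _)))
      exact (dvd_sub (e1 _) (e1 _)).mul_left _
  · intro k hk
    obtain ⟨hk1, hk2⟩ := Finset.mem_filter.1 hk
    refine hgen _ (Finset.filter_subset _ _) ?_
    intro t ht t' ht'
    have h1 := (Finset.mem_filter.1 ht).2
    have h2 := (Finset.mem_filter.1 ht').2
    have h3 : Q ∣ ((t : ℤ) - t') * (k.1.1 - k.1.2) := by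
      have := dvd_sub h1 h2
      have e : (t : ℤ) * (k.1.1 - k.1.2) + (k.2.1 - k.2.2) -
          ((t' : ℤ) * (k.1.1 - k.1.2) + (k.2.1 - k.2.2)) = ((t : ℤ) - t') * (k.1.1 - k.1.2) := by
        ring
      rwa [e] at this
    by_contra hcon
    have hpp : Prime (p : ℤ) := Nat.prime_iff_prime_int.1 hp
    have h4 : IsCoprime Q ((t : ℤ) - t') := by
      rw [hQ]
      exact IsCoprime.pow_left ((Prime.coprime_iff_not_dvd hpp).2 hcon)
    have h5 := h4.dvd_of_dvd_mul_left h3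
    apply hk2
    simp only [Finset.mem_product] at hk1
    obtain ⟨⟨h6, h7⟩, _⟩ := hk1
    obtain ⟨x, _, hx⟩ := Finset.mem_image.1 h6
    obtain ⟨x', _, hx'⟩ := Finset.mem_image.1 h7
    have h8 := emod_eq_iff.2 h5
    rw [← hx, ← hx'] at h8 ⊢
    rwa [Int.emod_emod_of_dvd _ dvd_rfl, Int.emod_emod_of_dvd _ dvd_rfl] at h8

theorem step {α δ c β K : ℝ} {L A₀ AB AX : ℕ} (hc : Cn α δ c β L A₀ AB AX) (hα : 0 < α)
    (hδ : 0 < δ) (hcc : 0 ≤ c) (hβ : 0 ≤ β) (hK : 0 ≤ K) {p e : ℕ} (hp : p.Prime) (he : 1 ≤ e)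
    (heL : e ≤ L) {T : Finset ℕ} (hT : ∀ t ∈ T, ¬ p ∣ t) {X B : Finset ℤ} (hX : A₀ ≤ X.card)
    (hB : AB ≤ B.card) (IH : IHyp α δ K T ((X.card : ℝ) * B.card))
    (hgen : ∀ S ⊆ T, (∀ t ∈ S, ∀ t' ∈ S, (p : ℤ) ∣ (t : ℤ) - t') →
      ∑ t ∈ S, NE α (t : ℤ) (X ×ˢ B) ≤
        β * ∑ i ∈ Finset.range (e + 1), ∑ t ∈ T, NE α ((p : ℤ) ^ i * t) (X ×ˢ B)) :
    ∑ i ∈ Finset.range (e + 1), ∑ t ∈ T, NE α ((p : ℤ) ^ i * t) (X ×ˢ B) ≤
      T.card * ((X.card : ℝ) * B.card) ^ (1 + α * δ) * K * ((e + 1) * (1 - c * α)) := by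
  have hA0 := hc.A0
  have hXn : X.Nonempty := Finset.card_pos.1 (by omega)
  have hBn : B.Nonempty := Finset.card_pos.1 (by have := hc.AB1; omega)
  have hX0 : (0 : ℝ) < X.card := by exact_mod_cast hXn.card_pos
  have hB0 : (0 : ℝ) < B.card := by exact_mod_cast hBn.card_pos
  have hn0 : 0 < (X.card : ℝ) * B.card := mul_pos hX0 hB0
  have hp0 : (p : ℤ) ≠ 0 := by exact_mod_cast hp.ne_zero
  obtain ⟨N, hN⟩ : ∃ N : ℝ, N = T.card * K * ((X.card : ℝ) * B.card) ^ (α * δ) := ⟨_, rfl⟩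
  have hN0 : 0 ≤ N := by rw [hN]; positivity
  have hNe : T.card * ((X.card : ℝ) * B.card) ^ (1 + α * δ) * K * ((e + 1) * (1 - c * α)) =
      N * (X.card * B.card) * ((e + 1) * (1 - c * α)) := by
    rw [Real.rpow_add hn0, Real.rpow_one, hN]; ring
  rw [hNe]
  -- the dilated sets
  set D : ℕ → Finset ℤ := fun i => X.image fun x => (p : ℤ) ^ i * x with hD
  have hDc : ∀ i, (D i).card = X.card := fun i =>
    Finset.card_image_of_injective _ (mul_right_injective₀ (pow_ne_zero i hp0))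
  have hE : ∀ i, ∑ t ∈ T, NE α ((p : ℤ) ^ i * t) (X ×ˢ B) = TS α T (D i) B := by
    intro i
    unfold TS
    refine Finset.sum_congr rfl fun t _ => ?_
    rw [mul_comm, NE_mul (pow_ne_zero i hp0)]
  have hE1 : ∀ i, ∑ t ∈ T, NE α ((p : ℤ) ^ i * t) (X ×ˢ B) ≤ N * (X.card * B.card) := by
    intro i
    rw [hE i]
    have := IH.use (X := D i) (B := B) hα.le hδ.le hK hn0.le (by rw [hDc]) le_rfl
    rw [hDc, ← hN] at this
    exact this
  obtain ⟨κ, hκ⟩ : ∃ κ : ℝ, κ = (L + 1) * c * α := ⟨_, rfl⟩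
  have he' : (1 : ℝ) ≤ e := by exact_mod_cast he
  have heL' : (e : ℝ) ≤ L := by exact_mod_cast heL
  have hcα : 0 ≤ c * α := mul_nonneg hcc hα.le
  have hNn : 0 ≤ N * (X.card * B.card) := mul_nonneg hN0 hn0.le
  -- the level
  have hex : ∃ j : ℕ, X.card < 2 * (lt A₀ ((p : ℤ) ^ j) X).card := by
    obtain ⟨j, hj⟩ := lt_large hp.two_le hX
    refine ⟨j, ?_⟩
    rw [hj]
    have := hXn.card_pos
    omega
  obtain ⟨I, hI, hI'⟩ : ∃ I : ℕ, X.card < 2 * (lt A₀ ((p : ℤ) ^ (I + 1)) X).card ∧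
      ¬ X.card < 2 * (lt A₀ ((p : ℤ) ^ I) X).card := by
    have h1 := Nat.find_spec hex
    have h2 : Nat.find hex ≠ 0 := by
      intro h0
      rw [h0, pow_zero, lt_one hA0] at h1
      simp at h1
    obtain ⟨I, hIe⟩ := Nat.exists_eq_succ_of_ne_zero h2
    refine ⟨I, ?_, ?_⟩
    · rw [hIe] at h1; exact h1
    · exact Nat.find_min hex (m := I) (by rw [hIe]; exact Nat.lt_succ_self I)
  set Q : ℤ := (p : ℤ) ^ (I + 1) with hQ
  by_cases hcase : B.card ≤ 2 * (lt AB Q B).card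
  · -- the second summand is spread
    have hgain : ∀ i, 1 ≤ i → ∑ t ∈ T, NE α ((p : ℤ) ^ i * t) (X ×ˢ B) ≤
        N * (X.card * B.card) * (1 - κ) := by
      intro i hi
      rw [hE i]
      set X' := (hv A₀ ((p : ℤ) ^ I) X).image fun x => (p : ℤ) ^ i * x with hX'
      have hX'D : X' ⊆ D i := Finset.image_subset_image (hv_sub _ _ _)
      have hX'c : X'.card = (hv A₀ ((p : ℤ) ^ I) X).card :=
        Finset.card_image_of_injective _ (mul_right_injective₀ (pow_ne_zero i hp0))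
      have hrs : (rs Q X').card ≤ A₀ := by
        have h1 : rs Q X' ⊆ (rs ((p : ℤ) ^ I) (hv A₀ ((p : ℤ) ^ I) X)).image
            fun r => ((p : ℤ) ^ i * r) % Q := by
          intro r hr
          obtain ⟨y, hy, rfl⟩ := Finset.mem_image.1 hr
          obtain ⟨x, hx, rfl⟩ := Finset.mem_image.1 hy
          refine Finset.mem_image.2 ⟨_, mem_rs hx, ?_⟩
          rw [emod_eq_iff, ← mul_sub]
          have h2 : (p : ℤ) ^ I ∣ x % (p : ℤ) ^ I - x := by
            rw [← emod_eq_iff]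
            exact Int.emod_emod_of_dvd x dvd_rfl
          have h3 : Q ∣ (p : ℤ) ^ i * (p : ℤ) ^ I := by
            rw [hQ, ← pow_add]
            exact pow_dvd_pow _ (by omega)
          exact h3.trans (mul_dvd_mul_left _ h2)
        exact (Finset.card_le_card h1).trans (Finset.card_image_le.trans (hv_class subset_rfl))
      have h1 := gain_right (X := D i) (B := B) (X' := X') (B' := lt AB Q B) IH hα.le hδ.le hK
        (by rw [hDc]) hX'D hc.AB1 hrs (fun r hr => lt_class subset_rfl hr)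
      have h2 := combine (X := D i) (B := B) (X' := X') (B' := lt AB Q B) (err := 0) IH hα.le
        hδ.le hK (by rw [hDc]) hX'D (lt_sub _ _ _) hc.g1 (by
          rw [hDc, hX'c]
          have h3 := lt_add_hv A₀ ((p : ℤ) ^ I) X
          have h4 : X.card ≤ 2 * (hv A₀ ((p : ℤ) ^ I) X).card := by omega
          have h5 : (X.card : ℝ) ≤ 2 * (hv A₀ ((p : ℤ) ^ I) X).card := by exact_mod_cast h4
          have h6 : (B.card : ℝ) ≤ 2 * (lt AB Q B).card := by exact_mod_cast hcase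
          have h7 := mul_le_mul h5 h6 hB0.le (by positivity)
          have h8 : (0 : ℝ) ≤ (hv A₀ ((p : ℤ) ^ I) X).card * (lt AB Q B).card := by positivity
          linarith) (by rw [add_zero]; exact h1)
      rw [hDc, ← hN, add_zero] at h2
      refine h2.trans ?_
      have h3 := mul_le_mul_of_nonneg_right hc.k1 hNn
      rw [← hκ] at h3
      calc _ = 3 ^ α * (1 - (1 - (A₀ : ℝ) ^ α * (AB : ℝ) ^ (-(α * δ))) / 8) *
            (N * (X.card * B.card)) := by ring
        _ ≤ _ := h3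
        _ = _ := by ring
    rw [Finset.sum_range_succ']
    have h1 : ∑ i ∈ Finset.range e, ∑ t ∈ T, NE α ((p : ℤ) ^ (i + 1) * t) (X ×ˢ B) ≤
        ∑ _i ∈ Finset.range e, N * (X.card * B.card) * (1 - κ) :=
      Finset.sum_le_sum fun i _ => hgain (i + 1) (by omega)
    rw [Finset.sum_const, Finset.card_range, nsmul_eq_mul] at h1
    have h2 := hE1 0
    refine (add_le_add h1 h2).trans ?_
    have h3 : (e : ℝ) * (1 - κ) + 1 ≤ (e + 1) * (1 - c * α) := by
      have h4 : (e + 1) * (c * α) ≤ e * κ := by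
        rw [hκ]
        have : (e : ℝ) * ((L + 1) * c * α) = (e * (L + 1)) * (c * α) := by ring
        rw [this]
        refine mul_le_mul_of_nonneg_right ?_ hcα
        nlinarith
      linarith
    have h4 := mul_le_mul_of_nonneg_left h3 hNn
    linarith
  · push Not at hcase
    -- the multipliers prime to `p`
    suffices hgain : ∑ t ∈ T, NE α ((p : ℤ) ^ 0 * t) (X ×ˢ B) ≤
        N * (X.card * B.card) * (1 - κ) by
      rw [Finset.sum_range_succ']
      have h1 : ∑ i ∈ Finset.range e, ∑ t ∈ T, NE α ((p : ℤ) ^ (i + 1) * t) (X ×ˢ B) ≤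
          ∑ _i ∈ Finset.range e, N * (X.card * B.card) :=
        Finset.sum_le_sum fun i _ => hE1 (i + 1)
      rw [Finset.sum_const, Finset.card_range, nsmul_eq_mul] at h1
      refine (add_le_add h1 hgain).trans ?_
      have h3 : (e : ℝ) + (1 - κ) ≤ (e + 1) * (1 - c * α) := by
        have h4 : (e + 1) * (c * α) ≤ κ := by
          rw [hκ, mul_assoc]
          exact mul_le_mul_of_nonneg_right (by linarith) hcα
        linarith
      have h4 := mul_le_mul_of_nonneg_left h3 hNn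
      linarith
    have hE0 : ∑ t ∈ T, NE α ((p : ℤ) ^ 0 * t) (X ×ˢ B) = TS α T X B := by
      unfold TS
      simp
    rw [hE0]
    have hTQ : ∀ t ∈ T, IsCoprime Q (t : ℤ) := by
      intro t ht
      rw [hQ]
      refine IsCoprime.pow_left ((Prime.coprime_iff_not_dvd (Nat.prime_iff_prime_int.1 hp)).2 ?_)
      intro h
      exact hT t ht (Int.natCast_dvd_natCast.1 h)
    have hBh : (B.card : ℝ) ≤ 2 * (hv AB Q B).card := by
      have := lt_add_hv AB Q B
      have : B.card ≤ 2 * (hv AB Q B).card := by omega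
      exact_mod_cast this
    by_cases hcX : X.card ≤ 4 * (lt AX Q X).card
    · -- the first summand is spread
      have h1 := gain_left (X := X) (B := B) (X' := lt AX Q X) (B' := hv AB Q B) IH hα.le hδ.le hK
        hTQ le_rfl (hv_sub _ _ _) hc.AX1 (hv_class subset_rfl) (fun r hr => lt_class subset_rfl hr)
      have h2 := combine (X := X) (B := B) (X' := lt AX Q X) (B' := hv AB Q B) (err := 0) IH hα.le
        hδ.le hK le_rfl (lt_sub _ _ _) (hv_sub _ _ _) hc.g2 (by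
          have h5 : (X.card : ℝ) ≤ 4 * (lt AX Q X).card := by exact_mod_cast hcX
          have h7 := mul_le_mul h5 hBh hB0.le (by positivity)
          linarith) (by rw [add_zero]; exact h1)
      rw [← hN, add_zero] at h2
      refine h2.trans ?_
      have h3 := mul_le_mul_of_nonneg_right hc.k2 hNn
      rw [← hκ] at h3
      calc _ = 3 ^ α * (1 - (1 - (AB : ℝ) ^ α * (AX : ℝ) ^ (-(α * δ))) / 8) *
            (N * (X.card * B.card)) := by ring
        _ ≤ _ := h3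
        _ = _ := by ring
    · push Not at hcX
      -- the generic case
      set X' := (lt A₀ Q X) \ (lt AX Q X) with hX'
      have hX'l : X' ⊆ lt A₀ Q X := Finset.sdiff_subset
      have hX'h : X' ⊆ hv AX Q X := by
        intro x hx
        obtain ⟨h1, h2⟩ := Finset.mem_sdiff.1 hx
        refine Finset.mem_filter.2 ⟨lt_sub _ _ _ h1, fun h3 => h2 ?_⟩
        exact Finset.mem_filter.2 ⟨lt_sub _ _ _ h1, h3⟩
      have hX'c : (X.card : ℝ) ≤ 4 * X'.card := by
        have h1 := Finset.le_card_sdiff (lt AX Q X) (lt A₀ Q X)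
        rw [← hX'] at h1
        have : X.card ≤ 4 * X'.card := by omega
        exact_mod_cast this
      obtain ⟨W, hW⟩ : ∃ W : ℝ, W = ∑ i ∈ Finset.range (e + 1), ∑ t ∈ T,
        NE α ((p : ℤ) ^ i * t) (X ×ˢ B) := ⟨_, rfl⟩
      rw [← hW] at hgen
      have hWle : W ≤ (L + 1) * (N * (X.card * B.card)) := by
        rw [hW]
        calc _ ≤ ∑ _i ∈ Finset.range (e + 1), N * (X.card * B.card) :=
              Finset.sum_le_sum fun i _ => hE1 i
          _ = (e + 1) * (N * (X.card * B.card)) := by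
              rw [Finset.sum_const, Finset.card_range, nsmul_eq_mul]; push_cast; ring
          _ ≤ _ := mul_le_mul_of_nonneg_right (by linarith) hNn
      have hW0 : 0 ≤ W := by
        rw [hW]
        exact Finset.sum_nonneg fun _ _ => Finset.sum_nonneg fun _ _ => NE_nonneg _ _ _
      have hbad := bad_le (α := α) (β := β) (W := W) (p := p) (I := I) (T := T) (X := X) (B := B)
        (X' := X') (B' := hv AB Q B) hp (mul_nonneg hβ hW0) (hv_class hX'h) (hv_class subset_rfl)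
        hgen
      have h1 := gain_gen (X := X) (B := B) (X' := X') (B' := hv AB Q B) (Q := Q) IH hα.le hδ.le hK
        le_rfl (hX'l.trans (lt_sub _ _ _)) (hv_sub _ _ _) (A := A₀) (C := AX) (by omega) hc.AX1
        (hv_class hX'h) (fun r hr => lt_class hX'l hr) (bad T Q X' (hv AB Q B))
        (Finset.filter_subset _ _) (by
          intro t ht hts x hx x' hx' b hb b' hb' h
          by_contra hne
          exact hts (Finset.mem_filter.2 ⟨ht, x, hx, x', hx', b, hb, b', hb', h, hne⟩))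
      have hAXα : 0 ≤ (AX : ℝ) ^ α - 1 := by
        have := Real.one_le_rpow (x := (AX : ℝ)) (by exact_mod_cast hc.AX1) hα.le
        linarith
      have herr := mul_le_mul_of_nonneg_left hbad hAXα
      have h2 := combine (X := X) (B := B) (X' := X') (B' := hv AB Q B) IH hα.le
        hδ.le hK le_rfl (hX'l.trans (lt_sub _ _ _)) (hv_sub _ _ _) hc.g3 (by
          have h7 := mul_le_mul hX'c hBh hB0.le (by positivity)
          linarith) (h1.trans (add_le_add le_rfl herr))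
      rw [← hN] at h2
      refine h2.trans ?_
      have h3 := mul_le_mul_of_nonneg_right hc.k3 hNn
      rw [← hκ] at h3
      have h4 : ((AX : ℝ) ^ α - 1) * (((AX : ℝ) * AB) ^ 2 * (β * W)) ≤
          ((AX : ℝ) ^ α - 1) * (((AX : ℝ) * AB) ^ 2 * (β * (L + 1))) * (N * (X.card * B.card)) := by
        have h5 : β * W ≤ β * ((L + 1) * (N * (X.card * B.card))) :=
          mul_le_mul_of_nonneg_left hWle hβ
        have h6 := mul_le_mul_of_nonneg_left h5 (sq_nonneg ((AX : ℝ) * AB))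
        have h7 := mul_le_mul_of_nonneg_left h6 hAXα
        refine h7.trans (le_of_eq ?_)
        ring
      have h30 : (0 : ℝ) ≤ 3 ^ α := Real.rpow_nonneg (by norm_num) _
      calc _ ≤ 3 ^ α * ((1 - (1 - (A₀ : ℝ) ^ (-(α * δ))) / 8) * N * (X.card * B.card) +
            ((AX : ℝ) ^ α - 1) * (((AX : ℝ) * AB) ^ 2 * (β * (L + 1))) *
              (N * (X.card * B.card))) :=
            mul_le_mul_of_nonneg_left (add_le_add le_rfl h4) h30
        _ = 3 ^ α * (1 - (1 - (A₀ : ℝ) ^ (-(α * δ))) / 8 +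
            ((AX : ℝ) ^ α - 1) * (((AX : ℝ) * AB) ^ 2 * (β * (L + 1)))) *
              (N * (X.card * B.card)) := by ring
        _ ≤ _ := h3
        _ = _ := by ring

end Pool.Agent.Run7.h386.DE
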